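import Mathlib

set_option autoImplicit false

namespace Pool.Agent.Results.MP_afa6c5_al.OneConvex

open scoped commutatorElement

/-! ### Relative positive cones -/

/-- `P` is the set of elements that are positive modulo the subgroup `K`. -/
structure RelCone {G : Type} [Group G] (K : Subgroup G) (P : Set G) : Prop where
  mul : ∀ a ∈ P, ∀ b ∈ P, a * b ∈ P
  conj : ∀ a ∈ P, ∀ g : G, g * a * g⁻¹ ∈ P
  tri : ∀ a : G, a ∈ K ∨ a ∈ P ∨ a⁻¹ ∈ P
  asym : ∀ a ∈ P, a⁻¹ ∉ P
  nmem : ∀ a ∈ P, a ∉ K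

/-! ### Signs -/

/-- The sign `(-1)^n`. -/
def sg (n : ℤ) : ℤ := if Even n then 1 else -1

lemma sg_even {n : ℤ} (h : Even n) : sg n = 1 := by simp [sg, h]
lemma sg_odd {n : ℤ} (h : ¬ Even n) : sg n = -1 := by simp [sg, h]
lemma sg_zero : sg 0 = 1 := by simp [sg]
lemma sg_one : sg 1 = -1 := by simp [sg]
lemma sg_cases (n : ℤ) : sg n = 1 ∨ sg n = -1 := by unfold sg; split_ifs <;> simp
lemma sg_sq (n : ℤ) : sg n * sg n = 1 := by rcases sg_cases n with h | h <;> simp [h]
lemma sg_add (m n : ℤ) : sg (m + n) = sg m * sg n := by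
  unfold sg
  by_cases hm : Even m <;> by_cases hn : Even n <;> simp [hm, hn, Int.even_add]
lemma sg_neg (n : ℤ) : sg (-n) = sg n := by simp [sg]
lemma sg_sub (m n : ℤ) : sg (m - n) = sg m * sg n := by
  rw [sub_eq_add_neg, sg_add, sg_neg]
lemma sg_sgmul (a b : ℤ) : sg (sg a * b) = sg b := by
  rcases sg_cases a with h | h <;> simp [h, sg_neg]
lemma sg_mulsg (a b : ℤ) : sg (b * sg a) = sg b := by
  rw [mul_comm, sg_sgmul]

/-! ### The twisted group -/

/-- Finitely supported integer sequences with the product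
`(a b)_j = a_j + (-1)^{a_{j+1}} b_j`: the generator with index `j + 1` inverts the generator with
index `j`, all other pairs of generators commute. -/
@[ext] structure GN where
  f : ℕ → ℤ
  fin : (Function.support f).Finite

namespace GN

instance : One GN := ⟨⟨0, by simp⟩⟩

instance : Mul GN := ⟨fun a b => ⟨fun j => a.f j + sg (a.f (j + 1)) * b.f j, by
  refine (a.fin.union b.fin).subset ?_
  intro j hj
  simp only [Function.mem_support, Set.mem_union] at *
  by_contra h
  push Not at h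
  exact hj (by simp [h.1, h.2])⟩⟩

instance : Inv GN := ⟨fun a => ⟨fun j => - (sg (a.f (j + 1)) * a.f j), by
  refine a.fin.subset ?_
  intro j hj
  simp only [Function.mem_support] at *
  intro h
  exact hj (by simp [h])⟩⟩

@[simp] lemma one_f (j : ℕ) : (1 : GN).f j = 0 := rfl
@[simp] lemma mul_f (a b : GN) (j : ℕ) : (a * b).f j = a.f j + sg (a.f (j + 1)) * b.f j := rfl
@[simp] lemma inv_f (a : GN) (j : ℕ) : (a⁻¹).f j = - (sg (a.f (j + 1)) * a.f j) := rfl

lemma ext' {a b : GN} (h : ∀ j, a.f j = b.f j) : a = b := GN.ext (funext h)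

instance : Group GN := Group.ofLeftAxioms
  (by
    intro a b c
    apply ext'
    intro j
    simp only [mul_f, sg_add, sg_sgmul]
    ring)
  (by
    intro a
    apply ext'
    intro j
    simp [sg_zero])
  (by
    intro a
    apply ext'
    intro j
    simp only [mul_f, inv_f, one_f, sg_neg, sg_sgmul]
    ring)

/-- positive elements: the top nonzero coordinate is positive -/
def Pos (a : GN) : Prop := ∃ j, 0 < a.f j ∧ ∀ i, j < i → a.f i = 0

lemma top (a : GN) (ha : a ≠ 1) : ∃ j, a.f j ≠ 0 ∧ ∀ i, j < i → a.f i = 0 := by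
  have hne : (Function.support a.f).Nonempty := by
    by_contra h
    rw [Set.not_nonempty_iff_eq_empty, Function.support_eq_empty_iff] at h
    exact ha (GN.ext h)
  obtain ⟨j, hj, hmax⟩ := a.fin.exists_maximal hne
  refine ⟨j, hj, fun i hi => ?_⟩
  by_contra h
  exact absurd (hmax h hi.le) (not_le.mpr hi)

lemma pos_mul {a b : GN} (ha : Pos a) (hb : Pos b) : Pos (a * b) := by
  obtain ⟨i, hi, hi'⟩ := ha
  obtain ⟨j, hj, hj'⟩ := hb
  rcases lt_trichotomy i j with h | h | h
  · refine ⟨j, ?_, fun l hl => ?_⟩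
    · simp [hi' j h, hi' (j+1) (by omega), sg_zero, hj]
    · simp [hi' l (by omega), hj' l hl]
  · subst h
    refine ⟨i, ?_, fun l hl => ?_⟩
    · simp only [mul_f, hi' (i+1) (by omega), sg_zero]; linarith
    · simp [hi' l (by omega), hj' l hl]
  · refine ⟨i, ?_, fun l hl => ?_⟩
    · simp [hj' i h, hi]
    · simp [hi' l (by omega), hj' l (by omega)]

lemma pos_tri (a : GN) : a = 1 ∨ Pos a ∨ Pos a⁻¹ := by
  by_cases h : a = 1
  · exact Or.inl h
  · right
    obtain ⟨j, hj, hj'⟩ := top a h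
    rcases lt_or_gt_of_ne hj with h1 | h1
    · right
      refine ⟨j, ?_, fun l hl => ?_⟩
      · simp only [inv_f, hj' (j+1) (by omega), sg_zero]; linarith
      · simp [hj' l hl]
    · left
      exact ⟨j, h1, hj'⟩

lemma not_pos_one : ¬ Pos 1 := by
  rintro ⟨j, hj, -⟩
  simp at hj

lemma pos_asymm {a : GN} (ha : Pos a) (hb : Pos a⁻¹) : False := by
  have := pos_mul ha hb
  rw [mul_inv_cancel] at this
  exact not_pos_one this

noncomputable instance : LinearOrder GN where
  le a b := a = b ∨ Pos (a⁻¹ * b)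
  lt a b := Pos (a⁻¹ * b)
  le_refl a := Or.inl rfl
  le_trans a b c hab hbc := by
    rcases hab with rfl | hab
    · exact hbc
    rcases hbc with rfl | hbc
    · exact Or.inr hab
    · right
      have := pos_mul hab hbc
      rwa [show a⁻¹ * b * (b⁻¹ * c) = a⁻¹ * c by group] at this
  lt_iff_le_not_ge a b := by
    constructor
    · intro h
      refine ⟨Or.inr h, ?_⟩
      rintro (rfl | h')
      · rw [inv_mul_cancel] at h; exact not_pos_one h
      · exact pos_asymm h (by rwa [show (a⁻¹ * b)⁻¹ = b⁻¹ * a by group])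
    · rintro ⟨rfl | h, h2⟩
      · exact absurd (Or.inl rfl) h2
      · exact h
  le_antisymm a b hab hba := by
    rcases hab with rfl | hab
    · rfl
    rcases hba with rfl | hba
    · rfl
    · exact (pos_asymm hab (by rwa [show (a⁻¹ * b)⁻¹ = b⁻¹ * a by group])).elim
  le_total a b := by
    rcases pos_tri (a⁻¹ * b) with h | h | h
    · left; left; rw [inv_mul_eq_one] at h; exact h
    · left; right; exact h
    · right; right; rwa [show (a⁻¹ * b)⁻¹ = b⁻¹ * a by group] at h
  toDecidableLE := Classical.decRel _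
  toDecidableEq := Classical.decRel _
  toDecidableLT := Classical.decRel _

lemma lt_def {a b : GN} : a < b ↔ Pos (a⁻¹ * b) := Iff.rfl
lemma mul_lt_mul (c : GN) {a b : GN} (h : a < b) : c * a < c * b := by
  rw [lt_def] at *
  rwa [show (c * a)⁻¹ * (c * b) = a⁻¹ * b by group]
lemma mul_le_mul (c : GN) {a b : GN} (h : a ≤ b) : c * a ≤ c * b := by
  rcases h.lt_or_eq with h | h
  · exact (mul_lt_mul c h).le
  · rw [h]

/-- forgetting the coordinate `0` -/
def T : GN →* GN where
  toFun a := ⟨fun j => a.f (j + 1), by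
    have := a.fin.preimage (f := fun j : ℕ => j + 1) (fun x _ y _ h => by simpa using h)
    exact this⟩
  map_one' := rfl
  map_mul' a b := rfl

@[simp] lemma T_f (a : GN) (j : ℕ) : (T a).f j = a.f (j + 1) := rfl

/-- the element with a single coordinate -/
def u (j : ℕ) (n : ℤ) : GN := ⟨fun i => if i = j then n else 0, by
  refine (Set.finite_singleton j).subset ?_
  intro i hi
  by_contra h
  exact hi (by simp_all)⟩

lemma u_f (j : ℕ) (n : ℤ) (i : ℕ) : (u j n).f i = if i = j then n else 0 := rfl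

lemma T_u_succ (j : ℕ) (n : ℤ) : T (u (j + 1) n) = u j n := by
  apply ext'; intro i; simp [u_f]
lemma T_u_zero (n : ℤ) : T (u 0 n) = 1 := by
  apply ext'; intro i; simp [u_f]

lemma u_mul (j : ℕ) (m n : ℤ) : u j m * u j n = u j (m + n) := by
  apply ext'; intro i
  simp only [mul_f, u_f]
  by_cases h : i = j
  · subst h; simp [sg_zero]
  · simp [h]

lemma u_zero (j : ℕ) : u j 0 = 1 := by
  apply ext'; intro i; simp [u_f]

lemma u_inv (j : ℕ) (m : ℤ) : (u j m)⁻¹ = u j (-m) := by
  rw [inv_eq_iff_mul_eq_one, u_mul]; simp [u_zero]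

/-- the generator `j + 1` inverts the generator `j` -/
lemma u_rel (j : ℕ) : u (j + 1) 1 * u j 1 = u j (-1) * u (j + 1) 1 := by
  apply ext'; intro i
  simp only [mul_f, u_f]
  by_cases h : i = j
  · subst h; simp [sg_one, sg_zero]
  · by_cases h2 : i = j + 1
    · subst h2
      have h4 : j + 1 + 1 ≠ j := by omega
      simp [h4, sg_zero]
    · simp [h, h2]

lemma u_comm (i j : ℕ) (h : i + 2 ≤ j) (m n : ℤ) : u j m * u i n = u i n * u j m := by
  apply ext'; intro l
  simp only [mul_f, u_f]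
  by_cases h1 : l = i
  · subst h1
    have h2 : l ≠ j := by omega
    have h3 : l + 1 ≠ j := by omega
    simp [h2, h3, sg_zero]
  · by_cases h2 : l = j
    · subst h2
      have h3 : l + 1 ≠ i := by omega
      simp [h1, h3, sg_zero]
    · simp [h1, h2]

/-- left multiplication by an even power of a generator shifts one coordinate -/
lemma u_even_mul (q : ℕ) (m : ℤ) (hm : Even m) (a : GN) (i : ℕ) :
    (u q m * a).f i = a.f i + (if i = q then m else 0) := by
  simp only [mul_f, u_f]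
  by_cases h : i + 1 = q
  · simp [h, sg_even hm, add_comm]
  · simp [h, sg_zero, add_comm]

/-- comparing two elements that agree (are zero) above `q` -/
lemma lt_of_coord {a b : GN} (q : ℕ) (ha : ∀ i, q < i → a.f i = 0) (hb : ∀ i, q < i → b.f i = 0)
    (h : a.f q < b.f q) : a < b := by
  rw [lt_def]
  refine ⟨q, ?_, fun i hi => ?_⟩
  · simp only [mul_f, inv_f, ha (q+1) (by omega), sg_zero]
    have : sg (-(sg (a.f (q + 1 + 1)) * 0)) = 1 := by simp [sg_zero]
    rw [this]; linarith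
  · simp [ha i hi, hb i hi]

end GN

/-- Well-founded subsets of `GN`. -/
def WFs (S : Set GN) : Prop := ∀ t ⊆ S, t.Nonempty → ∃ a ∈ t, ∀ b ∈ t, a ≤ b

lemma WFs.mono {S S' : Set GN} (h : WFs S) (hs : S' ⊆ S) : WFs S' :=
  fun t ht hne => h t (ht.trans hs) hne

lemma WFs.union {S S' : Set GN} (h : WFs S) (h' : WFs S') : WFs (S ∪ S') := by
  intro t ht hne
  by_cases h1 : (t ∩ S).Nonempty
  · obtain ⟨a, ha, ha'⟩ := h _ (Set.inter_subset_right) h1
    by_cases h2 : (t ∩ S').Nonempty
    · obtain ⟨b, hb, hb'⟩ := h' _ (Set.inter_subset_right) h2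
      rcases le_total a b with hab | hab
      · refine ⟨a, ha.1, fun c hc => ?_⟩
        rcases ht hc with h3 | h3
        · exact ha' c ⟨hc, h3⟩
        · exact hab.trans (hb' c ⟨hc, h3⟩)
      · refine ⟨b, hb.1, fun c hc => ?_⟩
        rcases ht hc with h3 | h3
        · exact hab.trans (ha' c ⟨hc, h3⟩)
        · exact hb' c ⟨hc, h3⟩
    · refine ⟨a, ha.1, fun c hc => ?_⟩
      rcases ht hc with h3 | h3
      · exact ha' c ⟨hc, h3⟩
      · exact absurd ⟨c, hc, h3⟩ h2
  · have : t ⊆ S' := by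
      intro c hc
      rcases ht hc with h3 | h3
      · exact absurd ⟨c, hc, h3⟩ h1
      · exact h3
    exact h' t this hne

lemma WFs.translate {S : Set GN} (h : WFs S) (c : GN) : WFs {a | c⁻¹ * a ∈ S} := by
  intro t ht hne
  obtain ⟨a, ha, ha'⟩ := h ((fun x => c⁻¹ * x) '' t) (by
    rintro _ ⟨x, hx, rfl⟩
    exact ht hx) (hne.image _)
  obtain ⟨x, hx, rfl⟩ := ha
  refine ⟨x, hx, fun b hb => ?_⟩
  have := GN.mul_le_mul c (ha' _ ⟨b, hb, rfl⟩)
  simpa using this

lemma WFs.singleton (a : GN) : WFs {a} := by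
  intro t ht hne
  obtain ⟨b, hb⟩ := hne
  refine ⟨b, hb, fun c hc => ?_⟩
  rw [ht hb, ht hc]

lemma WFs.empty : WFs ∅ := by
  intro t ht hne
  obtain ⟨b, hb⟩ := hne
  exact absurd (ht hb) (by simp)

/-! ### The level group -/

/-- The data from which the group is built: a group with a positive cone, an order preserving
automorphism `σ`, a homomorphism `c` to the integers negated by `σ`, and an element `e` with
`c e = 1`. -/
structure Data (A : Type) [Group A] where
  σ : MulAut A
  c : A → ℤ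
  c_mul : ∀ a b, c (a * b) = c a + c b
  c_σ : ∀ a, c (σ a) = - c a
  P : Set A
  cone : RelCone ⊥ P
  Pσ : ∀ a ∈ P, σ a ∈ P
  e : A
  ce : c e = 1

namespace Data

variable {A : Type} [Group A] (D : Data A)

lemma c_one : D.c 1 = 0 := by
  have := D.c_mul 1 1
  simp at this
  exact this

lemma c_inv (a : A) : D.c a⁻¹ = - D.c a := by
  have := D.c_mul a a⁻¹
  rw [mul_inv_cancel, D.c_one] at this
  linarith

lemma c_zpow (a : A) (n : ℤ) : D.c (a ^ n) = n * D.c a := by
  induction n using Int.induction_on with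
  | zero => simp [D.c_one]
  | succ n ih => rw [zpow_add_one, D.c_mul, ih]; ring
  | pred n ih => rw [zpow_sub_one, D.c_mul, D.c_inv, ih]; ring

lemma c_σz (n : ℤ) (a : A) : D.c ((D.σ ^ n) a) = sg n * D.c a := by
  induction n using Int.induction_on generalizing a with
  | zero => simp [sg_zero]
  | succ n ih =>
    rw [zpow_add_one, MulAut.mul_apply, ih, D.c_σ, sg_add, sg_one]; ring
  | pred n ih =>
    rw [zpow_sub_one, MulAut.mul_apply, ih, sg_sub, sg_one]
    have := D.c_σ (D.σ⁻¹ a)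
    rw [MulAut.apply_inv_self] at this
    linarith [congrArg (fun x => sg (-(n:ℤ)) * x) this]

lemma Pσ_inv (a : A) (ha : a ∈ D.P) : D.σ⁻¹ a ∈ D.P := by
  rcases D.cone.tri (D.σ⁻¹ a) with h | h | h
  · exfalso
    rw [Subgroup.mem_bot] at h
    have : a = 1 := by
      have := congrArg D.σ h
      simpa using this
    exact D.cone.nmem a ha (by simp [this])
  · exact h
  · exfalso
    have := D.Pσ _ h
    rw [map_inv, MulAut.apply_inv_self] at this
    exact D.cone.asym a ha this

lemma Pσz (n : ℤ) (a : A) (ha : a ∈ D.P) : (D.σ ^ n) a ∈ D.P := by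
  induction n using Int.induction_on generalizing a with
  | zero => simpa using ha
  | succ n ih =>
    rw [zpow_add_one, MulAut.mul_apply]; exact ih _ (D.Pσ a ha)
  | pred n ih =>
    rw [zpow_sub_one, MulAut.mul_apply]; exact ih _ (D.Pσ_inv a ha)

/-- Bounded subsets of `GN`. -/
def _root_.Pool.Agent.Results.MP_afa6c5_al.OneConvex.Bd (S : Set GN) : Prop := ∃ k : ℕ, ∀ h ∈ S, ∀ j, k ≤ j → h.f j = 0

lemma _root_.Pool.Agent.Results.MP_afa6c5_al.OneConvex.Bd.translate {S : Set GN} (h : Bd S) (c : GN) :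
    Bd {a | c⁻¹ * a ∈ S} := by
  obtain ⟨k, hk⟩ := h
  have : ∃ m : ℕ, ∀ j, m ≤ j → c.f j = 0 := by
    obtain ⟨m, hm⟩ := c.fin.bddAbove
    refine ⟨m + 1, fun j hj => ?_⟩
    by_contra hc
    have := hm (show j ∈ Function.support c.f from hc)
    omega
  obtain ⟨m, hm⟩ := this
  refine ⟨max k m, fun a ha j hj => ?_⟩
  have h1 := hk _ ha j (le_trans (le_max_left _ _) hj)
  have h2 := hm j (le_trans (le_max_right _ _) hj)
  rw [GN.mul_f, GN.inv_f, h2] at h1
  simp only [mul_zero, neg_zero, zero_add] at h1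
  rcases sg_cases ((c⁻¹).f (j+1)) with h | h <;> rw [h] at h1 <;> linarith

/-- The level group: functions `GN → A` with well-founded bounded support and finitely many
values outside the kernel of `c`. -/
def L : Subgroup (GN → A) where
  carrier := {F | WFs {h | F h ≠ 1} ∧ Bd {h | F h ≠ 1} ∧ {h | D.c (F h) ≠ 0}.Finite}
  one_mem' := by
    refine ⟨?_, ⟨0, ?_⟩, ?_⟩
    · simpa using WFs.empty
    · simp
    · simp [D.c_one]
  mul_mem' := by
    rintro F G ⟨h1, ⟨k, h2⟩, h3⟩ ⟨h1', ⟨k', h2'⟩, h3'⟩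
    have key : ∀ h, (F * G) h ≠ 1 → F h ≠ 1 ∨ G h ≠ 1 := by
      intro h hh
      by_contra hc
      push Not at hc
      exact hh (by simp [hc.1, hc.2])
    refine ⟨(h1.union h1').mono (fun h hh => key h hh), ⟨max k k', fun h hh j hj => ?_⟩, ?_⟩
    · rcases key h hh with h4 | h4
      · exact h2 h h4 j (le_trans (le_max_left _ _) hj)
      · exact h2' h h4 j (le_trans (le_max_right _ _) hj)
    · refine (h3.union h3').subset ?_
      intro h hh
      simp only [Set.mem_setOf_eq, Pi.mul_apply, D.c_mul, Set.mem_union] at *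
      by_contra hc
      push Not at hc
      exact hh (by simp [hc.1, hc.2])
  inv_mem' := by
    rintro F ⟨h1, h2, h3⟩
    have : {h | F⁻¹ h ≠ 1} = {h | F h ≠ 1} := by ext h; simp
    refine ⟨this ▸ h1, this ▸ h2, ?_⟩
    simpa [D.c_inv] using h3

lemma mem_L {F : GN → A} : F ∈ D.L ↔
    WFs {h | F h ≠ 1} ∧ Bd {h | F h ≠ 1} ∧ {h | D.c (F h) ≠ 0}.Finite := Iff.rfl

/-- the action of `GN` on functions -/
def actF (k : GN) (F : GN → A) : GN → A :=
  fun h => (D.σ ^ (k.f 0 * sg (h.f 0))) (F ((GN.T k)⁻¹ * h))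

lemma actF_mem (k : GN) {F : GN → A} (hF : F ∈ D.L) : D.actF k F ∈ D.L := by
  obtain ⟨h1, h2, h3⟩ := hF
  have key : {h | D.actF k F h ≠ 1} = {h | (GN.T k)⁻¹ * h ∈ {h | F h ≠ 1}} := by
    ext h
    simp [actF]
  refine ⟨?_, ?_, ?_⟩
  · rw [key]; exact h1.translate _
  · rw [key]; exact h2.translate _
  · have : {h | D.c (D.actF k F h) ≠ 0} = (fun h => (GN.T k)⁻¹ * h) ⁻¹' {h | D.c (F h) ≠ 0} := by
      ext h
      simp only [actF, Set.mem_setOf_eq, D.c_σz, Set.mem_preimage]
      rcases sg_cases (k.f 0 * sg (h.f 0)) with h' | h' <;> simp [h']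
    rw [this]
    exact h3.preimage (fun x _ y _ h => by simpa using h)

lemma actF_mul (k : GN) (F G : GN → A) : D.actF k (F * G) = D.actF k F * D.actF k G := by
  funext h; simp [actF]

lemma actF_one (F : GN → A) : D.actF 1 F = F := by
  funext h; simp [actF]

lemma actF_actF (k l : GN) (F : GN → A) : D.actF (k * l) F = D.actF k (D.actF l F) := by
  funext h
  simp only [actF, GN.mul_f, map_mul]
  rw [← MulAut.mul_apply, ← zpow_add]
  congr 1
  · congr 1
    simp only [GN.inv_f, GN.T_f, sg_add, sg_neg, sg_sgmul]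
    ring
  · congr 1
    group

instance : SMul GN D.L := ⟨fun k F => ⟨D.actF k F.1, D.actF_mem k F.2⟩⟩

lemma smul_val (k : GN) (F : D.L) (h : GN) :
    (k • F).1 h = (D.σ ^ (k.f 0 * sg (h.f 0))) (F.1 ((GN.T k)⁻¹ * h)) := rfl

instance : MulDistribMulAction GN D.L where
  one_smul F := Subtype.ext (D.actF_one F.1)
  mul_smul k l F := Subtype.ext (D.actF_actF k l F.1)
  smul_mul k F G := Subtype.ext (D.actF_mul k F.1 G.1)
  smul_one k := by
    apply Subtype.ext
    funext h
    simp [smul_val]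

/-- the total `c`-value -/
noncomputable def χ (F : D.L) : ℤ := ∑ᶠ h, D.c (F.1 h)

lemma χ_mul (F G : D.L) : D.χ (F * G) = D.χ F + D.χ G := by
  unfold χ
  rw [← finsum_add_distrib F.2.2.2 G.2.2.2]
  apply finsum_congr
  intro h
  simp [D.c_mul]

lemma χ_one : D.χ 1 = 0 := by
  simp [χ, D.c_one]

lemma χ_inv (F : D.L) : D.χ F⁻¹ = - D.χ F := by
  have := D.χ_mul F F⁻¹
  rw [mul_inv_cancel, D.χ_one] at this
  linarith

lemma χ_smul (k : GN) (F : D.L) : D.χ (k • F) = sg (k.f 0) * D.χ F := by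
  unfold χ
  have h1 : ∀ h, D.c ((k • F).1 h) = sg (k.f 0) * D.c (F.1 ((Equiv.mulLeft (GN.T k)⁻¹) h)) := by
    intro h
    rw [smul_val, D.c_σz, sg_mulsg]
    rfl
  rw [finsum_congr h1, ← mul_finsum]
  congr 1
  exact finsum_comp_equiv (Equiv.mulLeft (GN.T k)⁻¹) (f := fun h => D.c (F.1 h))

end Data

/-! ### The big group -/

section GGdef

variable {A : Type} [Group A] (D : Data A)

/-- The group: a finitely supported family `v` of elements of the level group, indexed by the
integers, and an integer `k` (the exponent of the shift). -/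
@[ext] structure GG where
  v : ℤ → D.L
  fin : {i | v i ≠ 1}.Finite
  k : ℤ

variable {D}

namespace GG

lemma chi_fin (x : GG D) : {i | D.χ (x.v i) ≠ 0}.Finite := by
  refine x.fin.subset ?_
  intro i hi h
  exact hi (by simp only [h]; exact D.χ_one)

/-- the element of `GN` through which `x` acts on level `i` -/
noncomputable def gam (x : GG D) (i : ℤ) : GN := ⟨fun j => D.χ (x.v (i + 1 + j)), by
  have := x.chi_fin.preimage (f := fun j : ℕ => i + 1 + (j : ℤ))
    (fun x _ y _ h => by simpa using h)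
  exact this⟩

lemma gam_f (x : GG D) (i : ℤ) (j : ℕ) : (x.gam i).f j = D.χ (x.v (i + 1 + j)) := rfl

instance : One (GG D) := ⟨⟨1, by simp, 0⟩⟩

noncomputable instance : Mul (GG D) := ⟨fun x y =>
  ⟨fun i => x.v i * (x.gam i • y.v (i - x.k)), by
    have h2 : {i : ℤ | y.v (i - x.k) ≠ 1}.Finite :=
      y.fin.preimage (f := fun i : ℤ => i - x.k) (fun x _ y _ h => by simpa using h)
    refine (x.fin.union h2).subset ?_
    intro i hi
    simp only [Set.mem_setOf_eq, Set.mem_union] at *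
    by_contra h
    push Not at h
    exact hi (by rw [h.1, h.2, smul_one, one_mul]), x.k + y.k⟩⟩

noncomputable instance : Inv (GG D) := ⟨fun x =>
  ⟨fun i => (x.gam (i + x.k))⁻¹ • (x.v (i + x.k))⁻¹, by
    have h2 : {i : ℤ | x.v (i + x.k) ≠ 1}.Finite :=
      x.fin.preimage (f := fun i : ℤ => i + x.k) (fun x _ y _ h => by simpa using h)
    refine h2.subset ?_
    intro i hi
    simp only [Set.mem_setOf_eq] at *
    intro h
    exact hi (by rw [h, inv_one, smul_one]), - x.k⟩⟩

lemma one_v (i : ℤ) : (1 : GG D).v i = 1 := rfl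
lemma one_k : (1 : GG D).k = 0 := rfl
lemma mul_v (x y : GG D) (i : ℤ) : (x * y).v i = x.v i * (x.gam i • y.v (i - x.k)) := rfl
lemma mul_k (x y : GG D) : (x * y).k = x.k + y.k := rfl
lemma inv_v (x : GG D) (i : ℤ) :
    (x⁻¹).v i = (x.gam (i + x.k))⁻¹ • (x.v (i + x.k))⁻¹ := rfl
lemma inv_k (x : GG D) : (x⁻¹).k = - x.k := rfl

lemma ext' {x y : GG D} (h : ∀ i, x.v i = y.v i) (hk : x.k = y.k) : x = y :=
  GG.ext (funext h) hk

lemma gam_one (i : ℤ) : (1 : GG D).gam i = 1 := by
  apply GN.ext'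
  intro j
  rw [gam_f, one_v, D.χ_one]; rfl

lemma gam_mul (x y : GG D) (i : ℤ) : (x * y).gam i = x.gam i * y.gam (i - x.k) := by
  apply GN.ext'
  intro j
  rw [GN.mul_f, gam_f, gam_f, gam_f, gam_f, mul_v, D.χ_mul, D.χ_smul, gam_f]
  congr 2
  · congr 3
    push_cast; ring
  · congr 2
    ring

noncomputable instance : Group (GG D) := Group.ofRightAxioms
  (by
    intro x y z
    apply ext'
    · intro i
      rw [mul_v, mul_v, mul_v, mul_v, mul_k, gam_mul, smul_mul', mul_assoc, mul_smul,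
        sub_add_eq_sub_sub]
    · rw [mul_k, mul_k, mul_k, mul_k]; ring)
  (by
    intro x
    apply ext'
    · intro i
      rw [mul_v, one_v, smul_one, mul_one]
    · rw [mul_k, one_k]; ring)
  (by
    intro x
    apply ext'
    · intro i
      rw [mul_v, inv_v, one_v, sub_add_cancel, smul_inv_smul, mul_inv_cancel]
    · rw [mul_k, inv_k, one_k]; ring)

/-- the exponent homomorphism -/
noncomputable def kHom : GG D →* Multiplicative ℤ where
  toFun x := Multiplicative.ofAdd x.k
  map_one' := rfl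
  map_mul' x y := rfl

/-- the kernel of the exponent homomorphism -/
noncomputable def HH (D : Data A) : Subgroup (GG D) := (kHom (D := D)).ker

lemma mem_HH (x : GG D) : x ∈ HH D ↔ x.k = 0 := by
  rw [HH, MonoidHom.mem_ker]
  exact Iff.rfl

instance : (HH D).Normal := by unfold HH; infer_instance

/-- conjugation formula -/
lemma conj_v (g x : GG D) (i : ℤ) : (g * x * g⁻¹).v i =
    g.v i * (g.gam i • x.v (i - g.k)) *
      ((g.gam i * x.gam (i - g.k) * (g.gam (i - x.k))⁻¹) • (g.v (i - x.k))⁻¹) := by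
  rw [mul_v, mul_v, inv_v, gam_mul, mul_k, ← mul_smul]
  have h1 : i - (g.k + x.k) + g.k = i - x.k := by ring
  rw [h1]

lemma conj_k (g x : GG D) : (g * x * g⁻¹).k = x.k := by
  rw [mul_k, mul_k, inv_k]; ring

/-- the element with a single level component -/
def E0 (l : ℤ) (F : D.L) : GG D := ⟨fun i => if i = l then F else 1, by
  refine (Set.finite_singleton l).subset ?_
  intro i hi
  by_contra h
  exact hi (if_neg h), 0⟩

lemma E0_v (l : ℤ) (F : D.L) (i : ℤ) : (E0 l F).v i = if i = l then F else 1 := rfl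

/-- the element with a single level component, as a homomorphism -/
noncomputable def E (l : ℤ) : D.L →* GG D where
  toFun F := E0 l F
  map_one' := by
    apply ext'
    · intro i; rw [E0_v, one_v]; simp
    · rfl
  map_mul' F G := by
    apply ext'
    · intro i
      rw [mul_v, E0_v, E0_v]
      by_cases h : i = l
      · subst h
        have : (E0 i F).gam i = 1 := by
          apply GN.ext'
          intro j
          rw [gam_f, E0_v, if_neg (by omega), D.χ_one]; rfl
        rw [this, one_smul, E0_v]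
        simp [E0]
      · rw [if_neg h, if_neg h, E0_v, if_neg (by simp only [E0]; omega), smul_one, one_mul]
    · rfl

lemma E_v (l : ℤ) (F : D.L) (i : ℤ) : (E l F).v i = if i = l then F else 1 := rfl

lemma E_v_same (l : ℤ) (F : D.L) : (E l F).v l = F := by simp [E_v]
lemma E_v_ne (l : ℤ) (F : D.L) (i : ℤ) (h : i ≠ l) : (E l F).v i = 1 := by simp [E_v, h]
lemma E_k (l : ℤ) (F : D.L) : (E l F).k = 0 := rfl

lemma E_injective (l : ℤ) : Function.Injective (E l : D.L →* GG D) := by
  intro F G h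
  have := congrArg (fun x : GG D => x.v l) h
  simpa [E_v] using this

lemma gam_E (l : ℤ) (F : D.L) (i : ℤ) (h : l ≤ i ∨ D.χ F = 0) : (E l F).gam i = 1 := by
  apply GN.ext'
  intro j
  rw [gam_f, E_v]
  rcases h with h | h
  · rw [if_neg (by omega), D.χ_one]; rfl
  · split_ifs
    · rw [h]; rfl
    · rw [D.χ_one]; rfl

lemma gam_E_lt (l : ℤ) (F : D.L) (i : ℤ) (j : ℕ) (h : l = i + 1 + j) :
    (E l F).gam i = GN.u j (D.χ F) := by
  apply GN.ext'
  intro m
  rw [gam_f, E_v, GN.u_f]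
  by_cases hm : m = j
  · subst hm; simp [h]
  · rw [if_neg (by omega), if_neg hm, D.χ_one]

/-- conjugating a level element with `χ = 0` -/
lemma conjE (g : GG D) (hg : g.k = 0) (l : ℤ) (F : D.L) (hF : D.χ F = 0) :
    g * E l F * g⁻¹ = E l (g.v l * (g.gam l • F) * (g.v l)⁻¹) := by
  apply ext'
  · intro i
    rw [conj_v, hg, E_k, gam_E l F _ (Or.inr hF), E_v, E_v]
    simp only [sub_zero, mul_one, mul_inv_cancel, one_smul]
    by_cases h : i = l
    · subst h; simp
    · simp [h]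
  · rw [conj_k]; rfl

/-- conjugating a level element by elements of higher levels -/
lemma conjE' (g : GG D) (hg : g.k = 0) (l : ℤ) (hl : ∀ i, i ≤ l → g.v i = 1) (F : D.L) :
    g * E l F * g⁻¹ = E l (g.gam l • F) := by
  apply ext'
  · intro i
    rw [conj_v, hg, E_k]
    simp only [sub_zero]
    by_cases h : i ≤ l
    · rw [hl i h, E_v, E_v]
      simp only [one_mul, inv_one, smul_one, mul_one]
      by_cases h' : i = l
      · subst h'; simp
      · simp [h']
    · rw [gam_E l F i (Or.inl (by omega)), E_v_ne l F i (by omega), E_v_ne l _ i (by omega)]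
      simp
  · rw [conj_k]; rfl

/-- the shift -/
noncomputable def tt (n : ℤ) : GG D := ⟨1, by simp, n⟩

lemma tt_v (n i : ℤ) : (tt n : GG D).v i = 1 := rfl
lemma tt_k (n : ℤ) : (tt n : GG D).k = n := rfl
lemma gam_tt (n i : ℤ) : (tt n : GG D).gam i = 1 := by
  apply GN.ext'
  intro j
  rw [gam_f, tt_v, D.χ_one]; rfl

lemma tt_mul (m n : ℤ) : (tt m : GG D) * tt n = tt (m + n) := by
  apply ext'
  · intro i; rw [mul_v, tt_v, tt_v, tt_v, smul_one, mul_one]
  · rfl

lemma tt_zero : (tt 0 : GG D) = 1 := rfl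

lemma conj_tt (n l : ℤ) (F : D.L) : tt n * E l F * (tt n)⁻¹ = E (l + n) F := by
  apply ext'
  · intro i
    rw [conj_v, gam_tt, gam_tt, tt_v, tt_v, tt_k]
    simp only [one_smul, one_mul, inv_one, mul_one, smul_one, E_v]
    by_cases h : i = l + n
    · subst h; simp
    · rw [if_neg h, if_neg (by omega)]
  · rw [conj_k]; rfl

lemma eq_mul_tt (x : GG D) : ∃ y : GG D, y.k = 0 ∧ x = y * tt x.k := by
  refine ⟨x * (tt x.k)⁻¹, ?_, by group⟩
  rw [mul_k, inv_k, tt_k]; ring

end GG

end GGdef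

/-! ### The bi-invariant order -/

section order

variable {A : Type} [Group A] (D : Data A)

/-- the positive elements of the level group -/
def PL : Set D.L := {F | ∃ h, F.1 h ∈ D.P ∧ ∀ h', h' < h → F.1 h' = 1}

variable {D}

lemma L_ext {F G : D.L} (h : ∀ x, F.1 x = G.1 x) : F = G := Subtype.ext (funext h)

lemma L_lead (F : D.L) (hF : F ≠ 1) : ∃ h, F.1 h ≠ 1 ∧ ∀ h', h' < h → F.1 h' = 1 := by
  have hne : ({h | F.1 h ≠ 1} : Set GN).Nonempty := by
    by_contra hc
    rw [Set.not_nonempty_iff_eq_empty] at hc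
    apply hF
    apply L_ext
    intro x
    by_contra hx
    have : x ∈ ({h | F.1 h ≠ 1} : Set GN) := hx
    rw [hc] at this
    exact this
  obtain ⟨a, ha, ha'⟩ := F.2.1 _ (le_refl _) hne
  refine ⟨a, ha, fun h' hh => ?_⟩
  by_contra hc
  exact absurd (ha' h' hc) (not_le.mpr hh)

lemma P_ne {a : A} (ha : a ∈ D.P) : a ≠ 1 := by
  intro h
  exact D.cone.nmem a ha (by simp [h])

lemma P_tri {a : A} (ha : a ≠ 1) : a ∈ D.P ∨ a⁻¹ ∈ D.P := by
  rcases D.cone.tri a with h | h
  · exact absurd (by simpa using h) ha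
  · exact h

lemma coneL : RelCone (⊥ : Subgroup D.L) (PL D) where
  mul := by
    rintro F ⟨h, h1, h2⟩ G ⟨h', h1', h2'⟩
    rcases lt_trichotomy h h' with hh | hh | hh
    · refine ⟨h, ?_, fun x hx => ?_⟩
      · show F.1 h * G.1 h ∈ D.P
        rw [h2' h hh, mul_one]; exact h1
      · show F.1 x * G.1 x = 1
        rw [h2 x hx, h2' x (hx.trans hh), one_mul]
    · subst hh
      refine ⟨h, D.cone.mul _ h1 _ h1', fun x hx => ?_⟩
      show F.1 x * G.1 x = 1
      rw [h2 x hx, h2' x hx, one_mul]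
    · refine ⟨h', ?_, fun x hx => ?_⟩
      · show F.1 h' * G.1 h' ∈ D.P
        rw [h2 h' hh, one_mul]; exact h1'
      · show F.1 x * G.1 x = 1
        rw [h2 x (hx.trans hh), h2' x hx, one_mul]
  conj := by
    rintro F ⟨h, h1, h2⟩ G
    refine ⟨h, D.cone.conj _ h1 (G.1 h), fun x hx => ?_⟩
    show G.1 x * F.1 x * (G.1 x)⁻¹ = 1
    rw [h2 x hx, mul_one, mul_inv_cancel]
  tri := by
    intro F
    by_cases hF : F = 1
    · left; rw [hF]; exact Subgroup.one_mem _
    · right
      obtain ⟨h, h1, h2⟩ := L_lead F hF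
      rcases P_tri h1 with h3 | h3
      · left; exact ⟨h, h3, h2⟩
      · right
        refine ⟨h, h3, fun x hx => ?_⟩
        show (F.1 x)⁻¹ = 1
        rw [h2 x hx, inv_one]
  asym := by
    rintro F ⟨h, h1, h2⟩ ⟨h', h1', h2'⟩
    rcases lt_trichotomy h h' with hh | hh | hh
    · have : (F.1 h)⁻¹ = 1 := h2' h hh
      rw [inv_eq_one] at this
      exact P_ne h1 this
    · subst hh
      exact D.cone.asym _ h1 h1'
    · have h3 := h2 h' hh
      have h4 : (F.1 h')⁻¹ ∈ D.P := h1'
      rw [h3, inv_one] at h4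
      exact P_ne h4 rfl
  nmem := by
    rintro F ⟨h, h1, h2⟩ hF
    rw [Subgroup.mem_bot] at hF
    rw [hF] at h1
    exact P_ne h1 rfl

lemma PL_smul (k : GN) (F : D.L) (hF : F ∈ PL D) : k • F ∈ PL D := by
  obtain ⟨h, h1, h2⟩ := hF
  refine ⟨GN.T k * h, ?_, fun x hx => ?_⟩
  · rw [D.smul_val, inv_mul_cancel_left]
    exact D.Pσz _ _ h1
  · rw [D.smul_val, h2, map_one]
    have := GN.mul_lt_mul (GN.T k)⁻¹ hx
    rwa [inv_mul_cancel_left] at this

variable (D) in
/-- the positive elements of the big group -/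
def PG : Set (GG D) := {x | 0 < x.k ∨ (x.k = 0 ∧ ∃ i, x.v i ∈ PL D ∧ ∀ l, i < l → x.v l = 1)}

lemma PL_ne {F : D.L} (hF : F ∈ PL D) : F ≠ 1 := by
  intro h
  exact coneL.nmem F hF (by simp [h])

lemma gam_eq_one {x : GG D} {i : ℤ} (h : ∀ l, i < l → x.v l = 1) (i' : ℤ) (hi : i ≤ i') :
    x.gam i' = 1 := by
  apply GN.ext'
  intro j
  rw [GG.gam_f, h _ (by omega), D.χ_one]; rfl

lemma GG_lead (x : GG D) (hx : x.v ≠ 1) : ∃ i, x.v i ≠ 1 ∧ ∀ l, i < l → x.v l = 1 := by
  have hne : ({i | x.v i ≠ 1} : Set ℤ).Nonempty := by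
    by_contra hc
    rw [Set.not_nonempty_iff_eq_empty] at hc
    apply hx
    funext i
    by_contra hi
    have : i ∈ ({i | x.v i ≠ 1} : Set ℤ) := hi
    rw [hc] at this
    exact this
  obtain ⟨i, hi, hmax⟩ := x.fin.exists_maximal hne
  refine ⟨i, hi, fun l hl => ?_⟩
  by_contra h
  exact absurd (hmax h hl.le) (not_le.mpr hl)

lemma coneG : RelCone (⊥ : Subgroup (GG D)) (PG D) where
  mul := by
    rintro x hx y hy
    rcases hx with hx | ⟨hx, i, h1, h2⟩
    · left
      rcases hy with hy | ⟨hy, _⟩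
      · rw [GG.mul_k]; omega
      · rw [GG.mul_k]; omega
    · rcases hy with hy | ⟨hy, i', h1', h2'⟩
      · left; rw [GG.mul_k]; omega
      · right
        refine ⟨by rw [GG.mul_k]; omega, ?_⟩
        rcases lt_trichotomy i i' with hh | hh | hh
        · refine ⟨i', ?_, fun l hl => ?_⟩
          · rw [GG.mul_v, hx, sub_zero, h2 i' hh, gam_eq_one h2 i' hh.le, one_smul, one_mul]
            exact h1'
          · rw [GG.mul_v, hx, sub_zero, h2 l (by omega), h2' l hl, smul_one, one_mul]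
        · subst hh
          refine ⟨i, ?_, fun l hl => ?_⟩
          · rw [GG.mul_v, hx, sub_zero, gam_eq_one h2 i le_rfl, one_smul]
            exact coneL.mul _ h1 _ h1'
          · rw [GG.mul_v, hx, sub_zero, h2 l hl, h2' l hl, smul_one, one_mul]
        · refine ⟨i, ?_, fun l hl => ?_⟩
          · rw [GG.mul_v, hx, sub_zero, h2' i hh, smul_one, mul_one]
            exact h1
          · rw [GG.mul_v, hx, sub_zero, h2 l hl, h2' l (by omega), smul_one, one_mul]
  conj := by
    rintro x hx g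
    rcases hx with hx | ⟨hx, i, h1, h2⟩
    · left; rw [GG.conj_k]; exact hx
    · right
      refine ⟨by rw [GG.conj_k]; exact hx, i + g.k, ?_, fun l hl => ?_⟩
      · rw [GG.conj_v, hx, add_sub_cancel_right, gam_eq_one h2 i le_rfl, sub_zero, mul_one,
          mul_inv_cancel, one_smul]
        exact coneL.conj _ (PL_smul _ _ h1) _
      · rw [GG.conj_v, hx, gam_eq_one h2 (l - g.k) (by omega), sub_zero, mul_one,
          mul_inv_cancel, one_smul, h2 (l - g.k) (by omega), smul_one, mul_one, mul_inv_cancel]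
  tri := by
    intro x
    rcases lt_trichotomy x.k 0 with hk | hk | hk
    · right; right; left
      rw [GG.inv_k]; omega
    · by_cases hv : x.v = 1
      · left
        rw [Subgroup.mem_bot]
        exact GG.ext hv hk
      · right
        obtain ⟨i, h1, h2⟩ := GG_lead x hv
        have h3 : (x⁻¹).v i = (x.v i)⁻¹ := by
          rw [GG.inv_v, hk, add_zero, gam_eq_one h2 i le_rfl, inv_one, one_smul]
        have h4 : ∀ l, i < l → (x⁻¹).v l = 1 := by
          intro l hl
          rw [GG.inv_v, hk, add_zero, h2 l hl, inv_one, smul_one]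
        rcases coneL.tri (x.v i) with h | h | h
        · exact absurd (by simpa using h) h1
        · left; right; exact ⟨hk, i, h, h2⟩
        · right; right; exact ⟨by rw [GG.inv_k]; omega, i, by rw [h3]; exact h, h4⟩
    · right; left; left; exact hk
  asym := by
    intro x hx hx'
    rcases hx with hx | ⟨hx, i, h1, h2⟩
    · rcases hx' with hx' | ⟨hx', _⟩
      · rw [GG.inv_k] at hx'; omega
      · rw [GG.inv_k] at hx'; omega
    · rcases hx' with hx' | ⟨hx', i', h1', h2'⟩
      · rw [GG.inv_k] at hx'; omega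
      · have h4 : ∀ l, (x⁻¹).v l = (x.gam l)⁻¹ • (x.v l)⁻¹ := by
          intro l
          rw [GG.inv_v, hx, add_zero]
        rcases lt_trichotomy i i' with hh | hh | hh
        · rw [h4, h2 i' hh, inv_one, smul_one] at h1'
          exact PL_ne h1' rfl
        · subst hh
          rw [h4, gam_eq_one h2 i le_rfl, inv_one, one_smul] at h1'
          exact coneL.asym _ h1 h1'
        · have := h2' i hh
          rw [h4] at this
          have h5 := congrArg (fun y => x.gam i • y) this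
          simp only [smul_inv_smul, smul_one, inv_eq_one] at h5
          exact PL_ne h1 h5
  nmem := by
    rintro x hx hx'
    rw [Subgroup.mem_bot] at hx'
    subst hx'
    rcases hx with hx | ⟨hx, i, h1, h2⟩
    · rw [GG.one_k] at hx; omega
    · exact PL_ne h1 rfl

end order

/-! ### Derived series: upper bound -/

section derived

variable {A : Type} [Group A] {D : Data A}

variable (D) in
/-- `k = 0` and all `χ` even -/
def S2 : Subgroup (GG D) where
  carrier := {x | x.k = 0 ∧ ∀ i, Even (D.χ (x.v i))}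
  one_mem' := ⟨rfl, fun i => by rw [GG.one_v, D.χ_one]; exact Even.zero⟩
  mul_mem' := by
    rintro x y ⟨hx, hx'⟩ ⟨hy, hy'⟩
    refine ⟨by rw [GG.mul_k, hx, hy, add_zero], fun i => ?_⟩
    rw [GG.mul_v, D.χ_mul, D.χ_smul]
    exact (hx' i).add ((hy' _).mul_left _)
  inv_mem' := by
    rintro x ⟨hx, hx'⟩
    refine ⟨by rw [GG.inv_k, hx, neg_zero], fun i => ?_⟩
    rw [GG.inv_v, D.χ_smul, D.χ_inv]
    exact ((hx' _).neg).mul_left _

lemma mem_S2 (x : GG D) : x ∈ S2 D ↔ x.k = 0 ∧ ∀ i, Even (D.χ (x.v i)) := Iff.rfl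

/-- parity of `χ` -/
noncomputable def par (x : GG D) (i : ℤ) : ZMod 2 := (D.χ (x.v i) : ZMod 2)

lemma par_sg (n m : ℤ) : ((sg n * m : ℤ) : ZMod 2) = m := by
  rcases sg_cases n with h | h
  · rw [h, one_mul]
  · rw [h]; push_cast
    rw [neg_one_mul, ZMod.neg_eq_self_mod_two]

lemma par_mul (x y : GG D) (hx : x.k = 0) (i : ℤ) : par (x * y) i = par x i + par y i := by
  unfold par
  rw [GG.mul_v, D.χ_mul, D.χ_smul, hx, sub_zero]
  push_cast
  rw [← Int.cast_mul, par_sg]

lemma par_inv (x : GG D) (hx : x.k = 0) (i : ℤ) : par x⁻¹ i = - par x i := by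
  have := par_mul x x⁻¹ hx i
  rw [mul_inv_cancel] at this
  have h1 : par (1 : GG D) i = 0 := by unfold par; rw [GG.one_v, D.χ_one]; simp
  rw [h1] at this
  exact eq_neg_of_add_eq_zero_right this.symm

lemma der1 : derivedSeries (GG D) 1 ≤ GG.HH D := by
  rw [derivedSeries_succ, Subgroup.commutator_le]
  intro x _ y _
  rw [GG.mem_HH, commutatorElement_def]
  simp only [GG.mul_k, GG.inv_k]
  ring

lemma der2 : derivedSeries (GG D) 2 ≤ S2 D := by
  rw [derivedSeries_succ, Subgroup.commutator_le]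
  intro x hx y hy
  have hx := der1 hx
  have hy := der1 hy
  rw [GG.mem_HH] at hx hy
  rw [mem_S2, commutatorElement_def]
  refine ⟨by simp only [GG.mul_k, GG.inv_k]; ring, fun i => ?_⟩
  have : par (x * y * x⁻¹ * y⁻¹) i = 0 := by
    rw [par_mul _ _ (by simp only [GG.mul_k, GG.inv_k]; rw [hx, hy]; ring),
      par_mul _ _ (by simp only [GG.mul_k]; rw [hx, hy]; ring), par_mul _ _ hx,
      par_inv _ hx, par_inv _ hy]
    ring
  unfold par at this
  rw [ZMod.intCast_zmod_eq_zero_iff_dvd] at this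
  exact even_iff_two_dvd.mpr (by exact_mod_cast this)

variable (D) in
/-- `k = 0`, all `χ = 0` and all values in the `m`-th derived group -/
def NN (m : ℕ) : Subgroup (GG D) where
  carrier := {x | x.k = 0 ∧ (∀ i, D.χ (x.v i) = 0) ∧ ∀ i h, (x.v i).1 h ∈ derivedSeries A m}
  one_mem' := ⟨rfl, fun i => by rw [GG.one_v, D.χ_one], fun i h => Subgroup.one_mem _⟩
  mul_mem' := by
    rintro x y ⟨hx, hx', hx''⟩ ⟨hy, hy', hy''⟩
    refine ⟨by rw [GG.mul_k, hx, hy, add_zero], fun i => ?_, fun i h => ?_⟩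
    · rw [GG.mul_v, D.χ_mul, D.χ_smul, hx', hy', mul_zero, add_zero]
    · have h1 : x.gam i = 1 := by
        apply GN.ext'; intro j; rw [GG.gam_f, hx']; rfl
      rw [GG.mul_v, h1, one_smul, hx, sub_zero]
      exact Subgroup.mul_mem _ (hx'' i h) (hy'' i h)
  inv_mem' := by
    rintro x ⟨hx, hx', hx''⟩
    have h1 : ∀ i, x.gam i = 1 := by
      intro i; apply GN.ext'; intro j; rw [GG.gam_f, hx']; rfl
    refine ⟨by rw [GG.inv_k, hx, neg_zero], fun i => ?_, fun i h => ?_⟩
    · rw [GG.inv_v, D.χ_smul, D.χ_inv, hx', neg_zero, mul_zero]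
    · rw [GG.inv_v, h1, hx, add_zero, inv_one, one_smul]
      exact Subgroup.inv_mem _ (hx'' i h)

lemma mem_NN (m : ℕ) (x : GG D) : x ∈ NN D m ↔ x.k = 0 ∧ (∀ i, D.χ (x.v i) = 0) ∧
    ∀ i h, (x.v i).1 h ∈ derivedSeries A m := Iff.rfl

lemma chi_mul_S2 (x y : GG D) (hx : x ∈ S2 D) (i : ℤ) :
    D.χ ((x * y).v i) = D.χ (x.v i) + D.χ (y.v i) := by
  rw [GG.mul_v, D.χ_mul, D.χ_smul, hx.1, sub_zero, GG.gam_f, sg_even (hx.2 _), one_mul]

lemma chi_inv_S2 (x : GG D) (hx : x ∈ S2 D) (i : ℤ) :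
    D.χ ((x⁻¹).v i) = - D.χ (x.v i) := by
  have := chi_mul_S2 x x⁻¹ hx i
  rw [mul_inv_cancel, GG.one_v, D.χ_one] at this
  linarith

lemma der3 (m : ℕ) : derivedSeries (GG D) (3 + m) ≤ NN D m := by
  induction m with
  | zero =>
    rw [add_zero, derivedSeries_succ, Subgroup.commutator_le]
    intro x hx y hy
    have hx := der2 hx
    have hy := der2 hy
    have hxi := Subgroup.inv_mem _ hx
    have hyi := Subgroup.inv_mem _ hy
    rw [mem_NN, commutatorElement_def]
    refine ⟨by simp only [GG.mul_k, GG.inv_k]; ring, fun i => ?_, fun i h => by simp⟩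
    rw [chi_mul_S2 _ _ (Subgroup.mul_mem _ (Subgroup.mul_mem _ hx hy) hxi),
      chi_mul_S2 _ _ (Subgroup.mul_mem _ hx hy), chi_mul_S2 _ _ hx, chi_inv_S2 _ hx,
      chi_inv_S2 _ hy]
    ring
  | succ m ih =>
    rw [← add_assoc, derivedSeries_succ, Subgroup.commutator_le]
    intro x hx y hy
    have hx := ih hx
    have hy := ih hy
    have hg : ∀ z : GG D, z ∈ NN D m → ∀ i, z.gam i = 1 := by
      intro z hz i
      apply GN.ext'; intro j; rw [GG.gam_f, hz.2.1]; rfl
    have hm : ∀ z w : GG D, z ∈ NN D m → ∀ i, (z * w).v i = z.v i * w.v i := by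
      intro z w hz i
      rw [GG.mul_v, hg z hz, one_smul, hz.1, sub_zero]
    have hi : ∀ z : GG D, z ∈ NN D m → ∀ i, (z⁻¹).v i = (z.v i)⁻¹ := by
      intro z hz i
      rw [GG.inv_v, hg z hz, hz.1, add_zero, inv_one, one_smul]
    have hxi := Subgroup.inv_mem _ hx
    have hc : x * y * x⁻¹ * y⁻¹ ∈ NN D m :=
      Subgroup.mul_mem _ (Subgroup.mul_mem _ (Subgroup.mul_mem _ hx hy) hxi)
        (Subgroup.inv_mem _ hy)
    rw [commutatorElement_def]
    refine ⟨hc.1, hc.2.1, fun i h => ?_⟩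
    rw [hm _ _ (Subgroup.mul_mem _ (Subgroup.mul_mem _ hx hy) hxi),
      hm _ _ (Subgroup.mul_mem _ hx hy), hm _ _ hx, hi _ hx, hi _ hy]
    show (x.v i).1 h * (y.v i).1 h * ((x.v i).1 h)⁻¹ * ((y.v i).1 h)⁻¹ ∈ _
    rw [← commutatorElement_def, derivedSeries_succ]
    exact Subgroup.commutator_mem_commutator (hx.2.2 i h) (hy.2.2 i h)

lemma der_bot (d : ℕ) (hd : derivedSeries A d = ⊥) : derivedSeries (GG D) (3 + d) = ⊥ := by
  rw [eq_bot_iff]
  intro x hx
  have hx := der3 d hx
  rw [mem_NN, hd] at hx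
  rw [Subgroup.mem_bot]
  apply GG.ext'
  · intro i
    apply L_ext
    intro h
    exact (Subgroup.mem_bot).mp (hx.2.2 i h)
  · exact hx.1

end derived

/-! ### Perfectness and the derived series: lower bound -/

section perfect

variable {A : Type} [Group A] {D : Data A}

/-- functions with values in the kernel of `c` -/
def InC (F : D.L) : Prop := ∀ h, D.c (F.1 h) = 0

lemma InC.chi {F : D.L} (hF : InC F) : D.χ F = 0 := by
  unfold Data.χ
  rw [finsum_congr hF]
  simp

lemma InC.smul {F : D.L} (hF : InC F) (k : GN) : InC (k • F) := by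
  intro h
  rw [D.smul_val, D.c_σz, hF, mul_zero]

/-- the infinite product used for perfectness -/
noncomputable def nF (q : ℕ) (F : GN → A) : GN → A := by
  classical
  exact fun h => if 0 ≤ h.f q ∧ Even (h.f q) then F (GN.u q (-(h.f q)) * h) else 1

lemma nF_pos (q : ℕ) (F : GN → A) (h : GN) (hh : 0 ≤ h.f q ∧ Even (h.f q)) :
    nF q F h = F (GN.u q (-(h.f q)) * h) := by
  unfold nF; rw [if_pos hh]

lemma nF_neg (q : ℕ) (F : GN → A) (h : GN) (hh : ¬ (0 ≤ h.f q ∧ Even (h.f q))) :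
    nF q F h = 1 := by
  unfold nF; rw [if_neg hh]

lemma nF_ne (q : ℕ) (F : GN → A) (h : GN) (hh : nF q F h ≠ 1) :
    (0 ≤ h.f q ∧ Even (h.f q)) ∧ F (GN.u q (-(h.f q)) * h) ≠ 1 := by
  by_cases hc : 0 ≤ h.f q ∧ Even (h.f q)
  · rw [nF_pos q F h hc] at hh
    exact ⟨hc, hh⟩
  · exact absurd (nF_neg q F h hc) hh

lemma nF_mem (F : D.L) (hF : InC F) (k : ℕ) (hk : ∀ h ∈ {h | F.1 h ≠ 1}, ∀ j, k ≤ j → h.f j = 0)
    (q : ℕ) (hq : k ≤ q) : nF q F.1 ∈ D.L := by
  -- coordinates of support elements above `q` vanish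
  have hup : ∀ h, nF q F.1 h ≠ 1 → ∀ j, q < j → h.f j = 0 := by
    intro h hh j hj
    obtain ⟨hc, hF1⟩ := nF_ne q F.1 h hh
    have := hk _ hF1 j (by omega)
    rw [GN.u_even_mul q _ hc.2.neg, if_neg (by omega), add_zero] at this
    exact this
  refine ⟨?_, ⟨q + 1, fun h hh j hj => hup h hh j (by omega)⟩, ?_⟩
  · intro t ht hne
    -- choose the minimal `q`-coordinate
    have hS : ((fun h : GN => (h.f q).toNat) '' t).Nonempty := hne.image _
    obtain ⟨h0, h0t, h0m⟩ := Nat.sInf_mem hS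
    have hmin : ∀ b ∈ t, h0.f q ≤ b.f q := by
      intro b hb
      have h1 : sInf ((fun h : GN => (h.f q).toNat) '' t) ≤ (b.f q).toNat :=
        Nat.sInf_le ⟨b, hb, rfl⟩
      have h2 := (nF_ne q F.1 h0 (ht h0t)).1.1
      have h3 := (nF_ne q F.1 b (ht hb)).1.1
      simp only at h0m
      omega
    have hev := (nF_ne q F.1 h0 (ht h0t)).1.2
    set m := h0.f q with hm
    have hsub : {a | GN.u q m * a ∈ t ∧ F.1 a ≠ 1} ⊆ {h | F.1 h ≠ 1} := fun a ha => ha.2
    have hne' : ({a | GN.u q m * a ∈ t ∧ F.1 a ≠ 1} : Set GN).Nonempty := by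
      refine ⟨GN.u q (-m) * h0, ?_, ?_⟩
      · show GN.u q m * (GN.u q (-m) * h0) ∈ t
        rw [← mul_assoc, GN.u_mul, add_neg_cancel, GN.u_zero, one_mul]; exact h0t
      · exact (nF_ne q F.1 h0 (ht h0t)).2
    obtain ⟨a, ha, ha'⟩ := F.2.1 _ hsub hne'
    refine ⟨GN.u q m * a, ha.1, fun b hb => ?_⟩
    rcases (hmin b hb).lt_or_eq with hlt | heq
    · apply le_of_lt
      apply GN.lt_of_coord q
      · intro i hi
        rw [GN.u_even_mul q _ hev, if_neg (by omega), add_zero]
        exact hk a ha.2 i (by omega)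
      · intro i hi
        exact hup b (ht hb) i hi
      · rw [GN.u_even_mul q _ hev, if_pos rfl, hk a ha.2 q hq, zero_add]
        exact hlt
    · have hb2 := (nF_ne q F.1 b (ht hb)).2
      rw [← heq] at hb2
      have := ha' (GN.u q (-m) * b) ⟨by
        show GN.u q m * (GN.u q (-m) * b) ∈ t
        rw [← mul_assoc, GN.u_mul, add_neg_cancel, GN.u_zero, one_mul]; exact hb, hb2⟩
      have h4 := GN.mul_le_mul (GN.u q m) this
      rwa [← mul_assoc, GN.u_mul, add_neg_cancel, GN.u_zero, one_mul] at h4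
  · have : {h | D.c (nF q F.1 h) ≠ 0} = ∅ := by
      rw [Set.eq_empty_iff_forall_notMem]
      intro h hh
      apply hh
      by_cases hc : 0 ≤ h.f q ∧ Even (h.f q)
      · rw [nF_pos q F.1 h hc]; exact hF _
      · rw [nF_neg q F.1 h hc]; exact D.c_one
    rw [this]; exact Set.finite_empty

lemma perfect (F : D.L) (hF : InC F) : ∃ q0 : ℕ, ∀ q, q0 ≤ q →
    ∃ n : D.L, InC n ∧ F = n * (GN.u (q + 1) 2 • n)⁻¹ := by
  obtain ⟨k, hk⟩ := F.2.2.1
  refine ⟨k, fun q hq => ⟨⟨nF q F.1, nF_mem F hF k hk q hq⟩, ?_, ?_⟩⟩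
  · intro h
    by_cases hc : 0 ≤ h.f q ∧ Even (h.f q)
    · show D.c (nF q F.1 h) = 0
      rw [nF_pos q F.1 h hc]; exact hF _
    · show D.c (nF q F.1 h) = 0
      rw [nF_neg q F.1 h hc]; exact D.c_one
  · apply L_ext
    intro h
    show F.1 h = nF q F.1 h * ((D.σ ^ ((GN.u (q + 1) 2).f 0 * sg (h.f 0)))
      (nF q F.1 ((GN.T (GN.u (q + 1) 2))⁻¹ * h)))⁻¹
    have h0 : (GN.u (q + 1) 2).f 0 = 0 := by simp [GN.u_f]
    rw [h0, zero_mul, zpow_zero, MulAut.one_apply, GN.T_u_succ, GN.u_inv]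
    have hcoord : (GN.u q (-2) * h).f q = h.f q - 2 := by
      rw [GN.u_even_mul q _ (by decide), if_pos rfl]; ring
    have hne : h.f q ≠ 0 → F.1 h = 1 := by
      intro h1
      by_contra h2
      exact h1 (hk h h2 q hq)
    by_cases hc : 0 ≤ h.f q ∧ Even (h.f q)
    · rw [nF_pos q F.1 h hc]
      by_cases h2 : 2 ≤ h.f q
      · have hc' : 0 ≤ (GN.u q (-2) * h).f q ∧ Even ((GN.u q (-2) * h).f q) := by
          rw [hcoord]
          refine ⟨by omega, ?_⟩
          exact hc.2.sub (by decide)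
        rw [nF_pos q F.1 _ hc', hcoord, ← mul_assoc, GN.u_mul]
        rw [show -(h.f q - 2) + -2 = -(h.f q) by ring, mul_inv_cancel]
        exact hne (by omega)
      · have h3 : h.f q = 0 := by
          obtain ⟨r, hr⟩ := hc.2
          omega
        rw [nF_neg q F.1 _ (by rw [hcoord]; omega), h3, neg_zero, GN.u_zero, one_mul, inv_one,
          mul_one]
    · rw [nF_neg q F.1 h hc, nF_neg q F.1 _ ?_]
      · rw [inv_one, mul_one]
        apply hne
        intro h0
        exact hc (by rw [h0]; exact ⟨le_rfl, Even.zero⟩)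
      · rw [hcoord]
        intro h1
        apply hc
        refine ⟨by omega, ?_⟩
        have := h1.2.add (show Even (2 : ℤ) by decide)
        rwa [sub_add_cancel] at this

variable (D) in
/-- functions supported at a single point -/
noncomputable def sgl (x : GN) : A →* D.L where
  toFun a := ⟨fun h => if h = x then a else 1, by
    have hs : {h | (if h = x then a else (1 : A)) ≠ 1} ⊆ {x} := by
      intro h hh
      by_contra hc
      exact hh (if_neg hc)
    refine ⟨(WFs.singleton x).mono hs, ?_, ?_⟩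
    · obtain ⟨m, hm⟩ := x.fin.bddAbove
      refine ⟨m + 1, fun h hh j hj => ?_⟩
      rw [Set.mem_singleton_iff.mp (hs hh)]
      by_contra hc
      have := hm (show j ∈ Function.support x.f from hc)
      omega
    · refine (Set.finite_singleton x).subset ?_
      intro h hh
      apply hs
      intro h1
      exact hh (by show D.c (if h = x then a else 1) = 0; rw [h1, D.c_one])⟩
  map_one' := by apply L_ext; intro h; simp
  map_mul' a b := by
    apply L_ext; intro h
    show (if h = x then a * b else 1) = (if h = x then a else 1) * (if h = x then b else 1)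
    split_ifs <;> simp

lemma sgl_val (x : GN) (a : A) (h : GN) : (sgl D x a).1 h = if h = x then a else 1 := rfl

lemma chi_sgl (x : GN) (a : A) : D.χ (sgl D x a) = D.c a := by
  unfold Data.χ
  rw [finsum_eq_single _ x]
  · rw [sgl_val, if_pos rfl]
  · intro h hh
    rw [sgl_val, if_neg hh, D.c_one]

lemma sgl_inC (x : GN) (a : A) (ha : D.c a = 0) : InC (sgl D x a) := by
  intro h
  rw [sgl_val]
  split_ifs
  · exact ha
  · exact D.c_one

variable (D) in
/-- the generators of the tower -/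
noncomputable def X (i : ℤ) : GG D := GG.E i (sgl D 1 D.e)

lemma X_k (i : ℤ) : (X D i).k = 0 := rfl

lemma gam_X (l i : ℤ) (j : ℕ) (h : l = i + 1 + j) : (X D l).gam i = GN.u j 1 := by
  unfold X
  rw [GG.gam_E_lt l _ i j h, chi_sgl, D.ce]

lemma tt_X (n i : ℤ) : GG.tt n * X D i * (GG.tt n)⁻¹ = X D (i + n) := GG.conj_tt n i _

variable (D) in
/-- elements of levels above `l` -/
def U (l : ℤ) : Subgroup (GG D) where
  carrier := {x | x.k = 0 ∧ ∀ i, i ≤ l → x.v i = 1}
  one_mem' := ⟨rfl, fun i _ => rfl⟩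
  mul_mem' := by
    rintro x y ⟨hx, hx'⟩ ⟨hy, hy'⟩
    refine ⟨by rw [GG.mul_k, hx, hy, add_zero], fun i hi => ?_⟩
    rw [GG.mul_v, hx, sub_zero, hx' i hi, hy' i hi, smul_one, mul_one]
  inv_mem' := by
    rintro x ⟨hx, hx'⟩
    refine ⟨by rw [GG.inv_k, hx, neg_zero], fun i hi => ?_⟩
    rw [GG.inv_v, hx, add_zero, hx' i hi, inv_one, smul_one]

lemma X_mem_U (l i : ℤ) (h : l < i) : X D i ∈ U D l :=
  ⟨rfl, fun j hj => GG.E_v_ne i _ j (by omega)⟩

/-- `gam` as a homomorphism on the kernel of the exponent -/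
lemma gam_mul0 (x y : GG D) (hx : x.k = 0) (i : ℤ) : (x * y).gam i = x.gam i * y.gam i := by
  rw [GG.gam_mul, hx, sub_zero]

lemma gam_inv0 (x : GG D) (hx : x.k = 0) (i : ℤ) : (x⁻¹).gam i = (x.gam i)⁻¹ := by
  have := gam_mul0 x x⁻¹ hx i
  rw [mul_inv_cancel, GG.gam_one] at this
  exact eq_inv_of_mul_eq_one_right this.symm

lemma comm_aux {G : Type} [Group G] (a b c d : G) (hca : c * a = a * c) (hcb : c * b = b * c)
    (hda : d * a = a * d) (hdc : d * c = c * d) (hba : b * a = a⁻¹ * b) :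
    (a * c⁻¹) * (b * d⁻¹) * (a * c⁻¹)⁻¹ * (b * d⁻¹)⁻¹ = a * a := by
  have h1 : b * a⁻¹ = a * b := by
    have := congrArg (fun y => a * y * a⁻¹) hba
    simp only [mul_assoc, mul_inv_cancel, mul_one, mul_inv_cancel_left] at this
    exact this.symm
  have e1 : d⁻¹ * (c * a⁻¹) * d = c * a⁻¹ := by
    have : d * (c * a⁻¹) = (c * a⁻¹) * d := by
      have h2 : d * a⁻¹ = a⁻¹ * d := by
        have := congrArg (fun y => a⁻¹ * y * a⁻¹) hda
        simp only [mul_assoc, mul_inv_cancel, mul_one, inv_mul_cancel_left] at this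
        exact this.symm
      rw [← mul_assoc, hdc, mul_assoc, h2, mul_assoc]
    rw [mul_assoc, ← this, inv_mul_cancel_left]
  calc (a * c⁻¹) * (b * d⁻¹) * (a * c⁻¹)⁻¹ * (b * d⁻¹)⁻¹
      = a * c⁻¹ * b * (d⁻¹ * (c * a⁻¹) * d) * b⁻¹ := by group
    _ = a * c⁻¹ * b * (c * a⁻¹) * b⁻¹ := by rw [e1]
    _ = a * c⁻¹ * (b * c) * a⁻¹ * b⁻¹ := by group
    _ = a * c⁻¹ * (c * b) * a⁻¹ * b⁻¹ := by rw [hcb]
    _ = a * (b * a⁻¹) * b⁻¹ := by group
    _ = a * (a * b) * b⁻¹ := by rw [h1]
    _ = a * a := by group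

variable (D) in
/-- an element of the second derived group acting on level `0` as the square of a generator -/
noncomputable def wt (q : ℕ) : GG D :=
  ⁅X D (q + 2) * (X D (q + 5))⁻¹, X D (q + 3) * (X D (q + 7))⁻¹⁆

lemma XX_mem (i n : ℤ) : X D i * (X D (i + n))⁻¹ ∈ derivedSeries (GG D) 1 := by
  have : X D i * (X D (i + n))⁻¹ = ⁅X D i, GG.tt n⁆ := by
    rw [← tt_X, commutatorElement_def]; group
  rw [this, derivedSeries_one]
  exact Subgroup.commutator_mem_commutator (Subgroup.mem_top _) (Subgroup.mem_top _)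

lemma wt_mem (q : ℕ) : wt D q ∈ derivedSeries (GG D) 2 := by
  unfold wt
  rw [derivedSeries_succ]
  apply Subgroup.commutator_mem_commutator
  · have := XX_mem (D := D) (q + 2) 3
    rwa [show (q : ℤ) + 2 + 3 = q + 5 by ring] at this
  · have := XX_mem (D := D) (q + 3) 4
    rwa [show (q : ℤ) + 3 + 4 = q + 7 by ring] at this

lemma wt_U (q : ℕ) : wt D q ∈ U D 0 := by
  have h1 := X_mem_U (D := D) 0 (q + 2) (by omega)
  have h2 := X_mem_U (D := D) 0 (q + 5) (by omega)
  have h3 := X_mem_U (D := D) 0 (q + 3) (by omega)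
  have h4 := X_mem_U (D := D) 0 (q + 7) (by omega)
  unfold wt
  rw [commutatorElement_def]
  have h5 := Subgroup.mul_mem _ h1 (Subgroup.inv_mem _ h2)
  have h6 := Subgroup.mul_mem _ h3 (Subgroup.inv_mem _ h4)
  exact Subgroup.mul_mem _ (Subgroup.mul_mem _ (Subgroup.mul_mem _ h5 h6)
    (Subgroup.inv_mem _ h5)) (Subgroup.inv_mem _ h6)

lemma wt_gam (q : ℕ) : (wt D q).gam 0 = GN.u (q + 1) 2 := by
  have h1 := X_mem_U (D := D) 0 (q + 2) (by omega)
  have h2 := X_mem_U (D := D) 0 (q + 5) (by omega)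
  have h3 := X_mem_U (D := D) 0 (q + 3) (by omega)
  have h4 := X_mem_U (D := D) 0 (q + 7) (by omega)
  have h5 := Subgroup.mul_mem _ h1 (Subgroup.inv_mem _ h2)
  have h6 := Subgroup.mul_mem _ h3 (Subgroup.inv_mem _ h4)
  unfold wt
  rw [commutatorElement_def,
    gam_mul0 _ _ (Subgroup.mul_mem _ (Subgroup.mul_mem _ h5 h6) (Subgroup.inv_mem _ h5)).1,
    gam_mul0 _ _ (Subgroup.mul_mem _ h5 h6).1, gam_mul0 _ _ h5.1, gam_inv0 _ h5.1,
    gam_inv0 _ h6.1, gam_mul0 _ _ h1.1, gam_mul0 _ _ h3.1, gam_inv0 _ h2.1, gam_inv0 _ h4.1,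
    gam_X (q + 2) 0 (q + 1) (by push_cast; ring), gam_X (q + 5) 0 (q + 4) (by push_cast; ring),
    gam_X (q + 3) 0 (q + 2) (by push_cast; ring), gam_X (q + 7) 0 (q + 6) (by push_cast; ring)]
  rw [comm_aux]
  · rw [GN.u_mul]; norm_num
  · exact GN.u_comm _ _ (by omega) _ _
  · exact GN.u_comm _ _ (by omega) _ _
  · exact GN.u_comm _ _ (by omega) _ _
  · exact GN.u_comm _ _ (by omega) _ _
  · rw [GN.u_inv]; exact GN.u_rel (q + 1)

/-- every `C`-valued function is a commutator with such an element -/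
lemma exists_comm (F : D.L) (hF : InC F) : ∃ (n : D.L) (q : ℕ), InC n ∧
    GG.E 0 F = ⁅GG.E 0 n, wt D q⁆ := by
  obtain ⟨q0, h⟩ := perfect F hF
  obtain ⟨n, hn, he⟩ := h q0 le_rfl
  refine ⟨n, q0, hn, ?_⟩
  have h1 := GG.conjE' (wt D q0) (wt_U q0).1 0 (wt_U q0).2 n
  rw [wt_gam] at h1
  rw [commutatorElement_def]
  have : GG.E 0 n * wt D q0 * (GG.E 0 n)⁻¹ * (wt D q0)⁻¹ =
      GG.E 0 n * (wt D q0 * GG.E 0 n * (wt D q0)⁻¹)⁻¹ := by group
  rw [this, h1, ← map_inv, ← map_mul, ← he]

lemma E_mem_der (F : D.L) (hF : InC F) (m : ℕ) (hm : m ≤ 3) :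
    GG.E 0 F ∈ derivedSeries (GG D) m := by
  induction m generalizing F with
  | zero => simp
  | succ m ih =>
    obtain ⟨n, q, hn, he⟩ := exists_comm F hF
    rw [he, derivedSeries_succ]
    refine Subgroup.commutator_mem_commutator (ih n hn (by omega)) ?_
    exact derivedSeries_antitone (GG D) (show m ≤ 2 by omega) (wt_mem q)

lemma der_low {Q : Type} [Group Q] (ι : Q →* A) (hι : ∀ q, D.c (ι q) = 0) (m : ℕ) (z : Q)
    (hz : z ∈ derivedSeries Q m) :
    GG.E 0 (sgl D 1 (ι z)) ∈ derivedSeries (GG D) (3 + m) := by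
  let ψ : Q →* GG D := (GG.E 0).comp ((sgl D 1).comp ι)
  have key : ∀ m, (derivedSeries Q m).map ψ ≤ derivedSeries (GG D) (3 + m) := by
    intro m
    induction m with
    | zero =>
      rintro _ ⟨y, -, rfl⟩
      exact E_mem_der _ (sgl_inC 1 _ (hι y)) 3 le_rfl
    | succ m ih =>
      rw [← add_assoc, derivedSeries_succ, derivedSeries_succ, Subgroup.map_commutator]
      exact Subgroup.commutator_mono ih ih
  exact key m ⟨z, hz, rfl⟩

end perfect

/-! ### Normal subgroups with orderable quotient -/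

section killing

variable {A : Type} [Group A] {D : Data A}

lemma RelCone.of_mul_conj {G : Type} [Group G] {K : Subgroup G} {P : Set G} (hP : RelCone K P)
    (x g : G) (h : x * (g * x * g⁻¹) ∈ K) : x ∈ K := by
  rcases hP.tri x with h1 | h1 | h1
  · exact h1
  · exact absurd h (hP.nmem _ (hP.mul _ h1 _ (hP.conj _ h1 g)))
  · have h2 := hP.mul _ (hP.conj _ h1 g) _ h1
    have h3 : (x * (g * x * g⁻¹))⁻¹ = g * x⁻¹ * g⁻¹ * x⁻¹ := by group
    rw [← h3] at h2
    exact absurd (Subgroup.inv_mem _ h) (hP.nmem _ h2)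

lemma u_smul_sgl (a : A) : GN.u 0 1 • sgl D 1 a = sgl D 1 (D.σ a) := by
  apply L_ext
  intro h
  rw [D.smul_val, GN.T_u_zero, inv_one, one_mul, sgl_val, sgl_val]
  split_ifs with hh
  · subst hh
    simp [GN.u_f, sg_zero]
  · simp

variable (D) in
/-- the special element -/
noncomputable def g1 (l : ℤ) : GG D := GG.E l (sgl D 1 (D.e * D.σ D.e))

lemma g1_inC : InC (sgl D 1 (D.e * D.σ D.e)) := by
  apply sgl_inC
  rw [D.c_mul, D.c_σ, add_neg_cancel]

lemma X_rel : X D 0 * (X D 1 * X D 0 * (X D 1)⁻¹) = g1 D 0 := by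
  have h1 := GG.conjE' (X D 1) (X_k 1) 0 (X_mem_U 0 1 (by norm_num)).2 (sgl D 1 D.e)
  rw [gam_X 1 0 0 (by norm_num), u_smul_sgl] at h1
  have h2 : X D 1 * X D 0 * (X D 1)⁻¹ = GG.E 0 (sgl D 1 (D.σ D.e)) := h1
  rw [h2]
  unfold X g1
  rw [← map_mul, ← map_mul]

lemma tt_g1 (n l : ℤ) : GG.tt n * g1 D l * (GG.tt n)⁻¹ = g1 D (l + n) := GG.conj_tt n l _

/-- an element of `GG D` acting on level `0` through a prescribed element of `GN` -/
lemma exists_gam (k : GN) (l : ℤ) : ∃ g : GG D, g ∈ U D l ∧ g.gam l = k := by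
  classical
  refine ⟨⟨fun i => if l < i then sgl D 1 (D.e ^ (k.f (i - l - 1).toNat)) else 1, ?_, 0⟩, ⟨rfl, ?_⟩, ?_⟩
  · have h1 : ((fun j : ℕ => l + 1 + (j : ℤ)) '' (Function.support k.f)).Finite := k.fin.image _
    refine h1.subset ?_
    intro i hi
    simp only [Set.mem_setOf_eq] at hi
    by_cases hl : l < i
    · refine ⟨(i - l - 1).toNat, ?_, ?_⟩
      · intro h0
        rw [if_pos hl, h0, zpow_zero, map_one] at hi
        exact hi rfl
      · show l + 1 + ((i - l - 1).toNat : ℤ) = i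
        omega
    · rw [if_neg hl] at hi
      exact absurd rfl hi
  · intro i hi
    show (if l < i then _ else _) = _
    rw [if_neg (by omega)]
  · apply GN.ext'
    intro j
    rw [GG.gam_f]
    show D.χ (if l < l + 1 + (j : ℤ) then _ else _) = _
    rw [if_pos (by omega), chi_sgl, D.c_zpow, D.ce, mul_one]
    congr 1
    omega

variable (K : Subgroup (GG D)) [hK : K.Normal]

include hK

lemma E_shift (l : ℤ) (F : D.L) (h : GG.E 0 F ∈ K) : GG.E l F ∈ K := by
  have := hK.conj_mem _ h (GG.tt l)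
  rwa [GG.conj_tt, zero_add] at this

lemma kill_C (hX : ∀ i, X D i ∈ K) (F : D.L) (hF : InC F) (l : ℤ) : GG.E l F ∈ K := by
  apply E_shift
  obtain ⟨n, q, hn, he⟩ := exists_comm F hF
  have hw : wt D q ∈ K := by
    unfold wt
    rw [commutatorElement_def]
    have h1 := Subgroup.mul_mem _ (hX (q + 2)) (Subgroup.inv_mem _ (hX (q + 5)))
    have h2 := Subgroup.mul_mem _ (hX (q + 3)) (Subgroup.inv_mem _ (hX (q + 7)))
    exact Subgroup.mul_mem _ (Subgroup.mul_mem _ (Subgroup.mul_mem _ h1 h2)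
      (Subgroup.inv_mem _ h1)) (Subgroup.inv_mem _ h2)
  rw [he, commutatorElement_def]
  exact Subgroup.mul_mem _ (hK.conj_mem _ hw _) (Subgroup.inv_mem _ hw)

lemma kill_smul (F : D.L) (h : GG.E 0 F ∈ K) (k : GN) : GG.E 0 (k • F) ∈ K := by
  obtain ⟨g, hg, hg'⟩ := exists_gam (D := D) k 0
  have := hK.conj_mem _ h g
  rwa [GG.conjE' g hg.1 0 hg.2, hg'] at this

lemma kill_sgl (hX : ∀ i, X D i ∈ K) (x : GN) (m : ℤ) : GG.E 0 (sgl D x (D.e ^ m)) ∈ K := by
  have h0 : GG.E 0 (sgl D x D.e) ∈ K := by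
    -- choose `k` with `T k = x` and `k_0 = 0`
    let k : GN := ⟨fun j => if j = 0 then 0 else x.f (j - 1), by
      have h1 : ((fun j : ℕ => j + 1) '' (Function.support x.f)).Finite := x.fin.image _
      refine h1.subset ?_
      intro j hj
      simp only [Function.mem_support] at hj
      have hj0 : j ≠ 0 := by
        intro h0; rw [if_pos h0] at hj; exact hj rfl
      rw [if_neg hj0] at hj
      exact ⟨j - 1, hj, by show j - 1 + 1 = j; omega⟩⟩
    have hk0 : k.f 0 = 0 := rfl
    have hkT : GN.T k = x := by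
      apply GN.ext'; intro j
      show (if j + 1 = 0 then 0 else x.f (j + 1 - 1)) = _
      simp
    have h1 := kill_smul K (sgl D 1 D.e) (hX 0) k
    have h2 : k • sgl D 1 D.e = sgl D x D.e := by
      apply L_ext
      intro h
      rw [D.smul_val, hk0, hkT, zero_mul, zpow_zero, MulAut.one_apply, sgl_val, sgl_val]
      by_cases hh : h = x
      · subst hh; simp
      · rw [if_neg hh, if_neg]
        intro h3
        apply hh
        rw [inv_mul_eq_one] at h3
        exact h3.symm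
    rwa [h2] at h1
  rw [map_zpow, map_zpow]
  exact Subgroup.zpow_mem _ h0 m

lemma kill_L (hX : ∀ i, X D i ∈ K) (F : D.L) : GG.E 0 F ∈ K := by
  classical
  generalize hN : (F.2.2.2.toFinset).card = N
  induction N generalizing F with
  | zero =>
    rw [Finset.card_eq_zero, Set.Finite.toFinset_eq_empty] at hN
    apply kill_C K hX F
    intro h
    by_contra hc
    have : h ∈ {h | D.c (F.1 h) ≠ 0} := hc
    rw [hN] at this
    exact this
  | succ N ih =>
    have hne : (F.2.2.2.toFinset).Nonempty := by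
      rw [← Finset.card_pos]; omega
    obtain ⟨x, hx⟩ := hne
    have hx' : D.c (F.1 x) ≠ 0 := by simpa using hx
    set F' : D.L := F * sgl D x (D.e ^ (- D.c (F.1 x))) with hF'
    have hF'v : ∀ h, D.c (F'.1 h) = if h = x then 0 else D.c (F.1 h) := by
      intro h
      have : F'.1 h = F.1 h * (sgl D x (D.e ^ (- D.c (F.1 x)))).1 h := rfl
      rw [this, D.c_mul, sgl_val]
      by_cases hh : h = x
      · subst hh
        rw [if_pos rfl, if_pos rfl, D.c_zpow, D.ce]; ring
      · rw [if_neg hh, if_neg hh, D.c_one, add_zero]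
    have hset : F'.2.2.2.toFinset = F.2.2.2.toFinset.erase x := by
      ext h
      simp only [Set.Finite.mem_toFinset, Set.mem_setOf_eq, Finset.mem_erase]
      rw [hF'v]
      by_cases hh : h = x
      · simp [hh]
      · simp [hh]
    have h1 : GG.E 0 F' ∈ K := by
      apply ih
      rw [hset, Finset.card_erase_of_mem hx, hN]
      rfl
    have h2 := kill_sgl K hX x (- D.c (F.1 x))
    have h3 : GG.E 0 F = GG.E 0 F' * (GG.E 0 (sgl D x (D.e ^ (- D.c (F.1 x)))))⁻¹ := by
      rw [hF', map_mul]; group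
    rw [h3]
    exact Subgroup.mul_mem _ h1 (Subgroup.inv_mem _ h2)

lemma kill_all (hX : ∀ i, X D i ∈ K) : GG.HH D ≤ K := by
  classical
  have key : ∀ (N : ℕ) (x : GG D), x.k = 0 → x.fin.toFinset.card = N → x ∈ K := by
    intro N
    induction N with
    | zero =>
      intro x hx hN
      rw [Finset.card_eq_zero, Set.Finite.toFinset_eq_empty] at hN
      have : x = 1 := by
        apply GG.ext'
        · intro i
          by_contra hc
          have : i ∈ {i | x.v i ≠ 1} := hc
          rw [hN] at this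
          exact this
        · exact hx
      rw [this]; exact Subgroup.one_mem _
    | succ N ih =>
      intro x hx hN
      have hne : (x.fin.toFinset).Nonempty := by
        rw [← Finset.card_pos]; omega
      obtain ⟨i, hi⟩ := hne
      set y : GG D := x * GG.E i ((x.gam i)⁻¹ • (x.v i)⁻¹) with hy
      have hyv : ∀ j, y.v j = if j = i then 1 else x.v j := by
        intro j
        rw [hy, GG.mul_v, hx, sub_zero, GG.E_v]
        by_cases hj : j = i
        · subst hj; simp
        · rw [if_neg hj, if_neg hj, smul_one, mul_one]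
      have hset : y.fin.toFinset = x.fin.toFinset.erase i := by
        ext h
        simp only [Set.Finite.mem_toFinset, Set.mem_setOf_eq, Finset.mem_erase]
        rw [hyv]
        by_cases hh : h = i
        · simp [hh]
        · simp [hh]
      have h1 : y ∈ K := by
        apply ih
        · rw [hy, GG.mul_k, hx, GG.E_k, add_zero]
        · rw [hset, Finset.card_erase_of_mem hi, hN]; rfl
      have h2 : GG.E i ((x.gam i)⁻¹ • (x.v i)⁻¹) ∈ K := E_shift K i _ (kill_L K hX _)
      have h3 : x = y * (GG.E i ((x.gam i)⁻¹ • (x.v i)⁻¹))⁻¹ := by rw [hy]; group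
      rw [h3]
      exact Subgroup.mul_mem _ h1 (Subgroup.inv_mem _ h2)
  intro x hx
  rw [GG.mem_HH] at hx
  exact key _ x hx rfl

/-- if the quotient is orderable and the special element dies, then everything in the kernel of
the exponent dies -/
lemma kill_order (P : Set (GG D)) (hP : RelCone K P) (hg : g1 D 0 ∈ K) : GG.HH D ≤ K := by
  apply kill_all
  have h0 : X D 0 ∈ K := by
    apply hP.of_mul_conj (X D 0) (X D 1)
    rw [X_rel]; exact hg
  intro i
  exact E_shift K i _ h0

/-! ### Normal subgroups not contained in the kernel of the exponent -/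

lemma not_le_HH (τ : GG D) (hτ : τ ∈ K) (hk : 0 < τ.k) (F : D.L) (hF : InC F) :
    GG.E 0 F ∈ K := by
  -- a bound for the levels of `τ`
  have hb : ∃ L0 : ℤ, ∀ i, L0 ≤ i → τ.v i = 1 := by
    obtain ⟨m, hm⟩ := τ.fin.bddAbove
    refine ⟨m + 1, fun i hi => ?_⟩
    by_contra hc
    have := hm (show i ∈ {i | τ.v i ≠ 1} from hc)
    omega
  obtain ⟨l, hl⟩ := hb
  -- equivalence modulo `K`
  have hEq : ∀ x y : GG D, x⁻¹ * y ∈ K ↔ (QuotientGroup.mk x : GG D ⧸ K) = QuotientGroup.mk y :=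
    fun x y => QuotientGroup.eq.symm
  let q : GG D →* GG D ⧸ K := QuotientGroup.mk' K
  have hqτ : q τ = 1 := (QuotientGroup.eq_one_iff τ).mpr hτ
  have hshift : ∀ F : D.L, InC F → q (GG.E (l + τ.k) F) = q (GG.E l F) := by
    intro F hF
    have h1 : τ * GG.E l F * τ⁻¹ = GG.E (l + τ.k) F := by
      apply GG.ext'
      · intro i
        rw [GG.conj_v, GG.E_k, GG.gam_E l F _ (Or.inr hF.chi), sub_zero, mul_one,
          mul_inv_cancel, one_smul, GG.E_v, GG.E_v]
        by_cases h : i = l + τ.k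
        · subst h
          rw [add_sub_cancel_right, if_pos rfl, if_pos rfl, hl _ (by omega),
            gam_eq_one (i := l) (fun j hj => hl j hj.le) _ (by omega)]
          simp
        · rw [if_neg h, if_neg (by omega), smul_one, mul_one, mul_inv_cancel]
      · rw [GG.conj_k]; rfl
    rw [← h1, map_mul, map_mul, map_inv, hqτ]; simp
  have hconj : ∀ (F : D.L) (g : GG D) (m : ℤ), g ∈ U D m →
      q (GG.E m (g.gam m • F)) = q g * q (GG.E m F) * (q g)⁻¹ := by
    intro F g m hg
    rw [← GG.conjE' g hg.1 m hg.2 F, map_mul, map_mul, map_inv]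
  -- the congruence on `GN`
  let R : GN → GN → Prop := fun a b => ∀ F : D.L, InC F → q (GG.E l (a • F)) = q (GG.E l (b • F))
  have Rtrans : ∀ a b c, R a b → R b c → R a c := fun a b c h1 h2 F hF => (h1 F hF).trans (h2 F hF)
  have Rsymm : ∀ a b, R a b → R b a := fun a b h1 F hF => (h1 F hF).symm
  have Rleft : ∀ a b c, R a b → R (c * a) (c * b) := by
    intro a b c h F hF
    obtain ⟨g, hg, hg'⟩ := exists_gam (D := D) c l
    rw [mul_smul, mul_smul, ← hg', hconj _ g l hg, hconj _ g l hg, h F hF]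
  have Rright : ∀ a b c, R a b → R (a * c) (b * c) := by
    intro a b c h F hF
    rw [mul_smul, mul_smul]
    exact h _ (hF.smul c)
  obtain ⟨k, hk'⟩ : ∃ k : ℕ, τ.k = k + 1 := ⟨(τ.k - 1).toNat, by omega⟩
  have Rgen : ∀ j : ℕ, R (GN.u j 1) (GN.u (j + (k + 1)) 1) := by
    intro j F hF
    have hm1 : X D (l + τ.k + 1 + j) ∈ U D l := X_mem_U _ _ (by omega)
    have hm2 : X D (l + τ.k + 1 + j) ∈ U D (l + τ.k) := X_mem_U _ _ (by omega)
    have h1 := hconj F _ l hm1
    have h2 := hconj F _ (l + τ.k) hm2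
    rw [gam_X (D := D) (l + τ.k + 1 + j) l (j + (k + 1)) (by push_cast; omega)] at h1
    rw [gam_X (D := D) (l + τ.k + 1 + j) (l + τ.k) j (by ring)] at h2
    rw [hshift F hF, hshift _ (hF.smul _)] at h2
    rw [h1, h2]
  have Rsq : ∀ j : ℕ, R 1 (GN.u j 2) := by
    intro j
    have e1 : R (GN.u (j + 1) 1) (GN.u (j + 1 + (k + 1) + (k + 1)) 1) :=
      Rtrans _ _ _ (Rgen (j + 1)) (Rgen (j + 1 + (k + 1)))
    have e2 := Rright _ _ (GN.u j 1) e1
    rw [GN.u_rel, GN.u_comm j (j + 1 + (k + 1) + (k + 1)) (by omega) 1 1] at e2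
    have e3 := Rleft _ _ (GN.u j 1) (Rsymm _ _ e1)
    have e4 := Rtrans _ _ _ e2 e3
    have e5 := Rright _ _ (GN.u (j + 1) 1)⁻¹ e4
    rw [mul_inv_cancel_right, mul_inv_cancel_right] at e5
    have e6 := Rleft _ _ (GN.u j 1) e5
    rw [GN.u_mul, GN.u_mul] at e6
    simpa [GN.u_zero] using e6
  obtain ⟨q0, hq⟩ := perfect F hF
  obtain ⟨n, hn, he⟩ := hq q0 le_rfl
  have h1 := Rsq (q0 + 1) n hn
  rw [one_smul] at h1
  have h2 : q (GG.E l F) = 1 := by
    rw [he, map_mul, map_inv, map_mul, map_inv, h1, mul_inv_cancel]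
  have h3 : GG.E l F ∈ K := (QuotientGroup.eq_one_iff _).mp h2
  have h4 := hK.conj_mem _ h3 (GG.tt (-l))
  rwa [GG.conj_tt, add_neg_cancel] at h4

lemma le_HH_of (hg : g1 D 0 ∉ K) : K ≤ GG.HH D := by
  intro τ hτ
  rw [GG.mem_HH]
  by_contra hk
  apply hg
  rcases lt_or_gt_of_ne hk with h | h
  · exact not_le_HH K τ⁻¹ (Subgroup.inv_mem _ hτ) (by rw [GG.inv_k]; omega) _ g1_inC
  · exact not_le_HH K τ hτ h _ g1_inC

end killing

/-! ### Zorn's lemma for normal subgroups with orderable quotient -/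

section zorn

variable {G : Type} [Group G]

lemma relCone_sSup (c : Set (Subgroup G)) (hc : IsChain (· ≤ ·) c) (hne : c.Nonempty)
    (hP : ∀ K ∈ c, ∃ P, RelCone K P) : ∃ P, RelCone (sSup c) P := by
  haveI : Nonempty c := hne.to_subtype
  have hmem : ∀ x, x ∈ sSup c ↔ ∃ K ∈ c, x ∈ K := fun x =>
    Subgroup.mem_sSup_of_directedOn hne hc.directedOn
  choose P hP using fun K : c => hP K.1 K.2
  haveI : IsDirectedOrder c := ⟨fun a b => by
    rcases hc.total a.2 b.2 with h | h
    · exact ⟨b, h, le_rfl⟩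
    · exact ⟨a, le_rfl, h⟩⟩
  let 𝒰 : Ultrafilter c := Ultrafilter.of (Filter.atTop : Filter c)
  have h𝒰 : (𝒰 : Filter c) ≤ Filter.atTop := Ultrafilter.of_le _
  refine ⟨{x | ∀ᶠ K in (𝒰 : Filter c), x ∈ P K}, ?_, ?_, ?_, ?_, ?_⟩
  · intro a ha b hb
    filter_upwards [ha, hb] with K h1 h2 using (hP K).mul a h1 b h2
  · intro a ha g
    filter_upwards [ha] with K h1 using (hP K).conj a h1 g
  · intro x
    by_cases hx : x ∈ sSup c
    · exact Or.inl hx
    · right
      have : ∀ᶠ K in (𝒰 : Filter c), x ∈ P K ∨ x⁻¹ ∈ P K := by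
        refine Filter.Eventually.of_forall fun K => ?_
        rcases (hP K).tri x with h | h
        · exact absurd ((hmem x).mpr ⟨K.1, K.2, h⟩) hx
        · exact h
      exact Ultrafilter.eventually_or.mp this
  · intro x hx hx'
    obtain ⟨K, h1, h2⟩ := (hx.and hx').exists
    exact (hP K).asym x h1 h2
  · intro x hx hx'
    obtain ⟨K0, hK0, hxK⟩ := (hmem x).mp hx'
    have h1 : ∀ᶠ K in (𝒰 : Filter c), (⟨K0, hK0⟩ : c) ≤ K :=
      h𝒰 (Filter.eventually_ge_atTop _)
    obtain ⟨K, h2, h3⟩ := (hx.and h1).exists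
    exact (hP K).nmem x h2 (h3 hxK)

lemma exists_maximal_normal (g : G) (hg : g ≠ 1) (P0 : Set G)
    (hP0 : RelCone (⊥ : Subgroup G) P0) :
    ∃ K : Subgroup G, K.Normal ∧ (∃ P, RelCone K P) ∧ g ∉ K ∧
      ∀ K' : Subgroup G, K'.Normal → (∃ P, RelCone K' P) → K < K' → g ∈ K' := by
  obtain ⟨K, -, hK⟩ := zorn_le_nonempty₀
    {K : Subgroup G | K.Normal ∧ (∃ P, RelCone K P) ∧ g ∉ K} (by
      intro c hc hchain y hy
      have hmem : ∀ x, x ∈ sSup c ↔ ∃ K ∈ c, x ∈ K := fun x =>
        Subgroup.mem_sSup_of_directedOn ⟨y, hy⟩ hchain.directedOn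
      refine ⟨sSup c, ⟨⟨?_⟩, ?_, ?_⟩, fun z hz => le_sSup hz⟩
      · intro x hx a
        obtain ⟨K, hK, hxK⟩ := (hmem x).mp hx
        exact (hmem _).mpr ⟨K, hK, (hc hK).1.conj_mem x hxK a⟩
      · exact relCone_sSup c hchain ⟨y, hy⟩ (fun K hK => (hc hK).2.1)
      · intro h
        obtain ⟨K, hK, hxK⟩ := (hmem _).mp h
        exact (hc hK).2.2 hxK) ⊥ ⟨inferInstance, ⟨P0, hP0⟩, by simpa using hg⟩
  refine ⟨K, hK.prop.1, hK.prop.2.1, hK.prop.2.2, fun K' h1 h2 h3 => ?_⟩
  by_contra h4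
  exact absurd (hK.le_of_ge ⟨h1, h2, h4⟩ h3.le) (not_le_of_gt h3)

end zorn

/-! ### The statement -/

/-- `r` is a total order on the group `G`, invariant under multiplication on both sides. -/
structure IsBiOrder {G : Type} [Group G] (r : G → G → Prop) : Prop where
  refl : ∀ a, r a a
  trans : ∀ a b c, r a b → r b c → r a c
  antisymm : ∀ a b, r a b → r b a → a = b
  total : ∀ a b, r a b ∨ r b a
  mul_left : ∀ a b c, r a b → r (c * a) (c * b)
  mul_right : ∀ a b c, r a b → r (a * c) (b * c)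

/-- `G` admits a bi-invariant total order. -/
def LinearlyOrderable (G : Type) [Group G] : Prop := ∃ r : G → G → Prop, IsBiOrder r

/-- `H` is convex for at least one bi-invariant total order of `G`. -/
def RelativelyConvex {G : Type} [Group G] (H : Subgroup G) : Prop :=
  ∃ r : G → G → Prop, IsBiOrder r ∧
    ∀ h₁ ∈ H, ∀ h₂ ∈ H, ∀ g : G, r h₁ g → r g h₂ → g ∈ H

section final

variable {G : Type} [Group G]

lemma RelCone.isBiOrder {P : Set G} (hP : RelCone (⊥ : Subgroup G) P) :
    IsBiOrder (fun a b : G => a = b ∨ a⁻¹ * b ∈ P) where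
  refl a := Or.inl rfl
  trans a b c := by
    rintro (rfl | h1) (rfl | h2)
    · exact Or.inl rfl
    · exact Or.inr h2
    · exact Or.inr h1
    · right
      have := hP.mul _ h1 _ h2
      rwa [show a⁻¹ * b * (b⁻¹ * c) = a⁻¹ * c by group] at this
  antisymm a b := by
    rintro (rfl | h1) (h2 | h2)
    · rfl
    · rfl
    · exact h2.symm
    · exfalso
      apply hP.asym _ h1
      rwa [show (a⁻¹ * b)⁻¹ = b⁻¹ * a by group]
  total a b := by
    rcases hP.tri (a⁻¹ * b) with h | h | h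
    · left; left
      rw [Subgroup.mem_bot, inv_mul_eq_one] at h
      exact h
    · left; right; exact h
    · right; right
      rwa [show (a⁻¹ * b)⁻¹ = b⁻¹ * a by group] at h
  mul_left a b c := by
    rintro (rfl | h)
    · exact Or.inl rfl
    · right
      rwa [show (c * a)⁻¹ * (c * b) = a⁻¹ * b by group]
  mul_right a b c := by
    rintro (rfl | h)
    · exact Or.inl rfl
    · right
      have := hP.conj _ h c⁻¹
      rwa [show c⁻¹ * (a⁻¹ * b) * c⁻¹⁻¹ = (a * c)⁻¹ * (b * c) by group] at this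

lemma relCone_of_convex {H : Subgroup G} (hH : H.Normal) {r : G → G → Prop} (hr : IsBiOrder r)
    (hc : ∀ h₁ ∈ H, ∀ h₂ ∈ H, ∀ g : G, r h₁ g → r g h₂ → g ∈ H) :
    RelCone H {x | r 1 x ∧ x ∉ H} where
  mul := by
    rintro a ⟨ha, ha'⟩ b ⟨hb, hb'⟩
    have h1 : r a (a * b) := by
      have := hr.mul_left _ _ a hb
      rwa [mul_one] at this
    refine ⟨hr.trans _ _ _ ha h1, fun hab => ha' ?_⟩
    exact hc 1 H.one_mem _ hab a ha h1
  conj := by
    rintro a ⟨ha, ha'⟩ g
    refine ⟨?_, fun h => ha' ?_⟩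
    · have := hr.mul_right _ _ g⁻¹ (hr.mul_left _ _ g ha)
      rwa [mul_one, mul_inv_cancel] at this
    · have := hH.conj_mem _ h g⁻¹
      rwa [show g⁻¹ * (g * a * g⁻¹) * g⁻¹⁻¹ = a by group] at this
  tri := by
    intro a
    by_cases ha : a ∈ H
    · exact Or.inl ha
    · right
      rcases hr.total 1 a with h | h
      · left; exact ⟨h, ha⟩
      · right
        refine ⟨?_, fun h' => ha (by simpa using H.inv_mem h')⟩
        have := hr.mul_left _ _ a⁻¹ h
        rwa [inv_mul_cancel, mul_one] at this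
  asym := by
    rintro a ⟨ha, ha'⟩ ⟨hb, hb'⟩
    have : r a 1 := by
      have := hr.mul_left _ _ a hb
      rwa [mul_one, mul_inv_cancel] at this
    have h1 := hr.antisymm _ _ ha this
    exact ha' (h1 ▸ H.one_mem)
  nmem := fun a ha => ha.2

lemma convex_ker {P : Set G} (hP : RelCone (⊥ : Subgroup G) P) (κ : G →* Multiplicative ℤ) :
    RelativelyConvex κ.ker := by
  have hcone : RelCone (⊥ : Subgroup G) {x | 1 < κ x ∨ (κ x = 1 ∧ x ∈ P)} := by
    refine ⟨?_, ?_, ?_, ?_, ?_⟩
    · rintro a (ha | ⟨ha, ha'⟩) b (hb | ⟨hb, hb'⟩)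
      · left; rw [map_mul]; exact one_lt_mul'' ha hb
      · left; rw [map_mul, hb, mul_one]; exact ha
      · left; rw [map_mul, ha, one_mul]; exact hb
      · right; exact ⟨by rw [map_mul, ha, hb, one_mul], hP.mul _ ha' _ hb'⟩
    · rintro a (ha | ⟨ha, ha'⟩) g
      · left
        rw [map_mul, map_mul, map_inv, mul_comm (κ g), mul_inv_cancel_right]; exact ha
      · right
        refine ⟨?_, hP.conj _ ha' g⟩
        rw [map_mul, map_mul, map_inv, ha, mul_one, mul_inv_cancel]
    · intro a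
      rcases lt_trichotomy 1 (κ a) with h | h | h
      · right; left; left; exact h
      · rcases hP.tri a with h1 | h1 | h1
        · left; exact h1
        · right; left; right; exact ⟨h.symm, h1⟩
        · right; right; right; exact ⟨by rw [map_inv, ← h, inv_one], h1⟩
      · right; right; left
        rw [map_inv]; exact one_lt_inv'.mpr h
    · rintro a (ha | ⟨ha, ha'⟩) (hb | ⟨hb, hb'⟩)
      · rw [map_inv] at hb
        exact absurd (one_lt_inv'.mp hb) (not_lt.mpr ha.le)
      · rw [map_inv, inv_eq_one] at hb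
        rw [hb] at ha; exact lt_irrefl _ ha
      · rw [map_inv, ha, inv_one] at hb; exact lt_irrefl _ hb
      · exact hP.asym _ ha' hb'
    · rintro a (ha | ⟨ha, ha'⟩) h
      · rw [Subgroup.mem_bot] at h
        rw [h, map_one] at ha; exact lt_irrefl _ ha
      · exact hP.nmem _ ha' h
  refine ⟨_, hcone.isBiOrder, ?_⟩
  intro h₁ hh₁ h₂ hh₂ g hg₁ hg₂
  rw [MonoidHom.mem_ker] at *
  have e1 : 1 ≤ κ g := by
    rcases hg₁ with rfl | (h | ⟨h, -⟩)
    · exact hh₁.ge
    · rw [map_mul, map_inv, hh₁, inv_one, one_mul] at h; exact h.le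
    · rw [map_mul, map_inv, hh₁, inv_one, one_mul] at h; exact h.ge
  have e2 : κ g ≤ 1 := by
    rcases hg₂ with rfl | (h | ⟨h, -⟩)
    · exact hh₂.le
    · rw [map_mul, map_inv, hh₂, mul_one] at h; exact (one_lt_inv'.mp h).le
    · rw [map_mul, map_inv, hh₂, mul_one, inv_eq_one] at h; exact h.le
  exact le_antisymm e2 e1

lemma RelCone.pow {H : Subgroup G} {P : Set G} (hP : RelCone H P) (a : G) (ha : a ∈ P) (n : ℕ) :
    a ^ (n + 1) ∈ P := by
  induction n with
  | zero => simpa using ha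
  | succ n ih => rw [pow_succ]; exact hP.mul _ ih _ ha

lemma final_unique {P : Set G} (hP : RelCone (⊥ : Subgroup G) P) (κ : G →* Multiplicative ℤ)
    (hκ : Function.Surjective κ) (hker : κ.ker ≠ ⊥)
    (hmain : ∀ N : Subgroup G, N.Normal → N ≠ ⊥ → (∃ P', RelCone N P') → κ.ker ≤ N) :
    ∃! H : Subgroup G, H ≠ ⊥ ∧ H ≠ ⊤ ∧ H.Normal ∧ RelativelyConvex H := by
  obtain ⟨t, ht⟩ := hκ (Multiplicative.ofAdd 1)
  refine ⟨κ.ker, ⟨hker, ?_, inferInstance, convex_ker hP κ⟩, ?_⟩
  · intro h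
    have : t ∈ κ.ker := h ▸ Subgroup.mem_top t
    rw [MonoidHom.mem_ker, ht] at this
    exact absurd this (by decide)
  · rintro H ⟨h1, h2, h3, r, hr, hc⟩
    have hcone := relCone_of_convex h3 hr hc
    have hle := hmain H h3 h1 ⟨_, hcone⟩
    refine le_antisymm ?_ hle
    intro x hx
    by_contra hxk
    apply h2
    -- powers of `t`
    have hzp : ∀ m : ℤ, κ (t ^ m) = Multiplicative.ofAdd m := by
      intro m
      rw [map_zpow, ht, ← ofAdd_zsmul, smul_eq_mul, mul_one]
    have htm : ∀ m : ℤ, κ x = Multiplicative.ofAdd m → t ^ m ∈ H := by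
      intro m hm
      have h4 : t ^ m * x⁻¹ ∈ κ.ker := by
        rw [MonoidHom.mem_ker, map_mul, map_inv, hzp, hm, mul_inv_cancel]
      have := H.mul_mem (hle h4) hx
      rwa [inv_mul_cancel_right] at this
    have htH : t ∈ H := by
      obtain ⟨m, hm⟩ : ∃ m : ℤ, κ x = Multiplicative.ofAdd m := ⟨Multiplicative.toAdd (κ x), rfl⟩
      have hm0 : m ≠ 0 := by
        rintro rfl
        exact hxk hm
      have h5 := htm m hm
      obtain ⟨n, hn⟩ : ∃ n : ℕ, t ^ (n + 1) ∈ H := by
        rcases lt_or_gt_of_ne hm0 with h | h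
        · refine ⟨(-m - 1).toNat, ?_⟩
          have h6 := H.inv_mem h5
          rw [← zpow_neg] at h6
          rwa [← zpow_natCast, show (((-m - 1).toNat + 1 : ℕ) : ℤ) = -m by push_cast; omega]
        · refine ⟨(m - 1).toNat, ?_⟩
          rwa [← zpow_natCast, show (((m - 1).toNat + 1 : ℕ) : ℤ) = m by push_cast; omega]
      rcases hcone.tri t with h | h | h
      · exact h
      · exact absurd hn (hcone.nmem _ (hcone.pow t h n))
      · have h7 := hcone.pow _ h n
        rw [inv_pow] at h7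
        exact absurd (H.inv_mem hn) (hcone.nmem _ h7)
    rw [Subgroup.eq_top_iff']
    intro y
    have h4 : y * (t ^ (Multiplicative.toAdd (κ y)))⁻¹ ∈ κ.ker := by
      rw [MonoidHom.mem_ker, map_mul, map_inv, hzp]
      simp
    have := H.mul_mem (hle h4) (H.zpow_mem htH (Multiplicative.toAdd (κ y)))
    rwa [inv_mul_cancel_right] at this

lemma RelCone.quotient {K : Subgroup G} [K.Normal] {P : Set G} (hP : RelCone K P) :
    RelCone (⊥ : Subgroup (G ⧸ K)) ((QuotientGroup.mk' K) '' P) where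
  mul := by
    rintro _ ⟨a, ha, rfl⟩ _ ⟨b, hb, rfl⟩
    exact ⟨a * b, hP.mul _ ha _ hb, map_mul _ _ _⟩
  conj := by
    rintro _ ⟨a, ha, rfl⟩ g
    obtain ⟨g, rfl⟩ := QuotientGroup.mk'_surjective K g
    exact ⟨g * a * g⁻¹, hP.conj _ ha g, by simp only [map_mul, map_inv]⟩
  tri := by
    intro x
    obtain ⟨x, rfl⟩ := QuotientGroup.mk'_surjective K x
    rcases hP.tri x with h | h | h
    · left
      rw [Subgroup.mem_bot]
      exact (QuotientGroup.eq_one_iff x).mpr h
    · right; left; exact ⟨x, h, rfl⟩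
    · right; right; exact ⟨x⁻¹, h, map_inv _ _⟩
  asym := by
    rintro _ ⟨a, ha, rfl⟩ ⟨b, hb, hab⟩
    have h1 : (QuotientGroup.mk' K) (a * b) = 1 := by
      rw [map_mul, hab, mul_inv_cancel]
    exact hP.nmem _ (hP.mul _ ha _ hb) ((QuotientGroup.eq_one_iff _).mp h1)
  nmem := by
    rintro _ ⟨a, ha, rfl⟩ h
    rw [Subgroup.mem_bot] at h
    exact hP.nmem _ ha ((QuotientGroup.eq_one_iff _).mp h)

lemma RelCone.comap {G' : Type} [Group G'] (f : G →* G') {N : Subgroup G'} {P : Set G'}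
    (hP : RelCone N P) : RelCone (N.comap f) (f ⁻¹' P) where
  mul a ha b hb := by
    show f (a * b) ∈ P
    rw [map_mul]; exact hP.mul _ ha _ hb
  conj a ha g := by
    show f (g * a * g⁻¹) ∈ P
    rw [map_mul, map_mul, map_inv]; exact hP.conj _ ha _
  tri a := by
    rcases hP.tri (f a) with h | h | h
    · exact Or.inl h
    · exact Or.inr (Or.inl h)
    · right; right
      show f a⁻¹ ∈ P
      rw [map_inv]; exact h
  asym a ha h := by
    have : f a⁻¹ ∈ P := h
    rw [map_inv] at this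
    exact hP.asym _ ha this
  nmem a ha h := hP.nmem _ ha h

end final

/-! ### Orderable soluble groups of every derived length -/

section WW

/-- leading values of functions `ℤ → Q` that are trivial near `-∞` -/
lemma exists_lead {Q : Type} [Group Q] (φ : ℤ → Q) (hb : ∃ a, ∀ m, m < a → φ m = 1) (hφ : φ ≠ 1) :
    ∃ m, φ m ≠ 1 ∧ ∀ m', m' < m → φ m' = 1 := by
  obtain ⟨a, ha⟩ := hb
  have hne : ∃ m, φ m ≠ 1 := by
    by_contra hc
    push Not at hc
    exact hφ (funext hc)
  obtain ⟨m, hm, hm'⟩ := Int.exists_least_of_bdd (P := fun m => φ m ≠ 1)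
    ⟨a, fun z hz => by
      by_contra hc
      exact hz (ha z (by omega))⟩ hne
  refine ⟨m, hm, fun m' hm2 => ?_⟩
  by_contra hc
  exact absurd (hm' m' hc) (by omega)

/-- positivity by leading value -/
def LeadPos {Q : Type} [Group Q] (P : Set Q) (φ : ℤ → Q) : Prop :=
  ∃ m, φ m ∈ P ∧ ∀ m', m' < m → φ m' = 1

variable {Q : Type} [Group Q] {P : Set Q} (hP : RelCone (⊥ : Subgroup Q) P)

include hP

lemma cone_ne {a : Q} (ha : a ∈ P) : a ≠ 1 := by
  rintro rfl
  exact hP.nmem 1 ha (Subgroup.one_mem _)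

lemma LeadPos.mul {φ ψ : ℤ → Q} (h1 : LeadPos P φ) (h2 : LeadPos P ψ) :
    LeadPos P (fun m => φ m * ψ m) := by
  obtain ⟨m, hm, hm'⟩ := h1
  obtain ⟨n, hn, hn'⟩ := h2
  rcases lt_trichotomy m n with h | h | h
  · exact ⟨m, by simp only [hn' m h, mul_one]; exact hm, fun i hi => by
      simp only [hm' i hi, hn' i (by omega), mul_one]⟩
  · subst h
    exact ⟨m, hP.mul _ hm _ hn, fun i hi => by simp only [hm' i hi, hn' i hi, mul_one]⟩
  · exact ⟨n, by simp only [hm' n h, one_mul]; exact hn, fun i hi => by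
      simp only [hm' i (by omega), hn' i hi, mul_one]⟩

omit hP in
lemma LeadPos.shift {φ : ℤ → Q} (h1 : LeadPos P φ) (n : ℤ) :
    LeadPos P (fun m => φ (m - n)) := by
  obtain ⟨m, hm, hm'⟩ := h1
  exact ⟨m + n, by simpa using hm, fun i hi => hm' _ (by omega)⟩

lemma LeadPos.conj {φ : ℤ → Q} (h1 : LeadPos P φ) (g : ℤ → Q) :
    LeadPos P (fun m => g m * φ m * (g m)⁻¹) := by
  obtain ⟨m, hm, hm'⟩ := h1
  exact ⟨m, hP.conj _ hm _, fun i hi => by simp only [hm' i hi, mul_one, mul_inv_cancel]⟩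

lemma LeadPos.tri (φ : ℤ → Q) (hb : ∃ a, ∀ m, m < a → φ m = 1) (hφ : φ ≠ 1) :
    LeadPos P φ ∨ LeadPos P (fun m => (φ m)⁻¹) := by
  obtain ⟨m, hm, hm'⟩ := exists_lead φ hb hφ
  rcases hP.tri (φ m) with h | h | h
  · exact absurd h hm
  · left; exact ⟨m, h, hm'⟩
  · right; exact ⟨m, h, fun i hi => by simp only [hm' i hi, inv_one]⟩

lemma LeadPos.ne {φ : ℤ → Q} (h1 : LeadPos P φ) : φ ≠ 1 := by
  rintro rfl
  obtain ⟨m, hm, -⟩ := h1
  exact cone_ne hP hm rfl

lemma LeadPos.asym {φ : ℤ → Q} (h1 : LeadPos P φ) (h2 : LeadPos P (fun m => (φ m)⁻¹)) : False := by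
  have := (h1.mul hP h2).ne hP
  apply this
  funext m
  simp

omit hP

/-- The wreath product of `Q` with `ℤ`, with base functions that are trivial near `-∞`. -/
@[ext] structure WW (Q : Type) [Group Q] where
  φ : ℤ → Q
  bd : ∃ a, ∀ m, m < a → φ m = 1
  k : ℤ

namespace WW

instance : One (WW Q) := ⟨⟨1, ⟨0, fun _ _ => rfl⟩, 0⟩⟩
instance : Mul (WW Q) := ⟨fun x y => ⟨fun m => x.φ m * y.φ (m - x.k), by
  obtain ⟨a, ha⟩ := x.bd
  obtain ⟨b, hb⟩ := y.bd
  refine ⟨min a (b + x.k), fun m hm => ?_⟩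
  rw [lt_min_iff] at hm
  rw [ha m hm.1, hb _ (by omega), mul_one], x.k + y.k⟩⟩
instance : Inv (WW Q) := ⟨fun x => ⟨fun m => (x.φ (m + x.k))⁻¹, by
  obtain ⟨a, ha⟩ := x.bd
  refine ⟨a - x.k, fun m hm => ?_⟩
  rw [ha _ (by omega), inv_one], - x.k⟩⟩

lemma one_φ (m : ℤ) : (1 : WW Q).φ m = 1 := rfl
lemma one_k : (1 : WW Q).k = 0 := rfl
lemma mul_φ (x y : WW Q) (m : ℤ) : (x * y).φ m = x.φ m * y.φ (m - x.k) := rfl
lemma mul_k (x y : WW Q) : (x * y).k = x.k + y.k := rfl
lemma inv_φ (x : WW Q) (m : ℤ) : (x⁻¹).φ m = (x.φ (m + x.k))⁻¹ := rfl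
lemma inv_k (x : WW Q) : (x⁻¹).k = - x.k := rfl
lemma ext' {x y : WW Q} (h : ∀ m, x.φ m = y.φ m) (hk : x.k = y.k) : x = y :=
  WW.ext (funext h) hk

instance : Group (WW Q) := Group.ofRightAxioms
  (by
    intro x y z
    apply ext'
    · intro m; rw [mul_φ, mul_φ, mul_φ, mul_φ, mul_k, mul_assoc, sub_add_eq_sub_sub]
    · rw [mul_k, mul_k, mul_k, mul_k]; ring)
  (by
    intro x
    apply ext'
    · intro m; rw [mul_φ, one_φ, mul_one]
    · rw [mul_k, one_k]; ring)
  (by
    intro x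
    apply ext'
    · intro m; rw [mul_φ, inv_φ, one_φ, sub_add_cancel, mul_inv_cancel]
    · rw [mul_k, inv_k, one_k]; ring)

lemma cone (hP : RelCone (⊥ : Subgroup Q) P) :
    RelCone (⊥ : Subgroup (WW Q)) {x | 0 < x.k ∨ (x.k = 0 ∧ LeadPos P x.φ)} where
  mul := by
    rintro x (hx | ⟨hx, hx'⟩) y (hy | ⟨hy, hy'⟩)
    · left; rw [mul_k]; omega
    · left; rw [mul_k]; omega
    · left; rw [mul_k]; omega
    · right
      refine ⟨by rw [mul_k]; omega, ?_⟩
      have := hx'.mul hP (hy'.shift x.k)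
      exact this
  conj := by
    rintro x (hx | ⟨hx, hx'⟩) g
    · left; rw [mul_k, mul_k, inv_k]; omega
    · right
      refine ⟨by rw [mul_k, mul_k, inv_k]; omega, ?_⟩
      have := (hx'.shift g.k).conj hP g.φ
      have e : (g * x * g⁻¹).φ = fun m => g.φ m * x.φ (m - g.k) * (g.φ m)⁻¹ := by
        funext m
        rw [mul_φ, mul_φ, inv_φ, mul_k, hx, add_zero, sub_add_cancel]
      rw [e]; exact this
  tri := by
    intro x
    rcases lt_trichotomy x.k 0 with h | h | h
    · right; right; left; rw [inv_k]; omega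
    · by_cases hφ : x.φ = 1
      · left
        rw [Subgroup.mem_bot]
        exact WW.ext hφ h
      · right
        rcases LeadPos.tri hP x.φ x.bd hφ with h1 | h1
        · left; right; exact ⟨h, h1⟩
        · right; right
          refine ⟨by rw [inv_k]; omega, ?_⟩
          have e : (x⁻¹).φ = fun m => (x.φ m)⁻¹ := by
            funext m; rw [inv_φ, h, add_zero]
          rw [e]; exact h1
    · right; left; left; exact h
  asym := by
    rintro x (hx | ⟨hx, hx'⟩) (hy | ⟨hy, hy'⟩)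
    · rw [inv_k] at hy; omega
    · rw [inv_k] at hy; omega
    · rw [inv_k] at hy; omega
    · have e : (x⁻¹).φ = fun m => (x.φ m)⁻¹ := by
        funext m; rw [inv_φ, hx, add_zero]
      rw [e] at hy'
      exact hx'.asym hP hy'
  nmem := by
    rintro x (hx | ⟨hx, hx'⟩) h
    · rw [Subgroup.mem_bot] at h
      rw [h, one_k] at hx; omega
    · rw [Subgroup.mem_bot] at h
      exact hx'.ne hP (by rw [h]; rfl)

variable (Q) in
/-- the part of the base with values in the `m`-th derived group -/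
def NW (n : ℕ) : Subgroup (WW Q) where
  carrier := {x | x.k = 0 ∧ ∀ m, x.φ m ∈ derivedSeries Q n}
  one_mem' := ⟨rfl, fun m => Subgroup.one_mem _⟩
  mul_mem' := by
    rintro x y ⟨hx, hx'⟩ ⟨hy, hy'⟩
    exact ⟨by rw [mul_k, hx, hy, add_zero], fun m => Subgroup.mul_mem _ (hx' m) (hy' _)⟩
  inv_mem' := by
    rintro x ⟨hx, hx'⟩
    exact ⟨by rw [inv_k, hx, neg_zero], fun m => Subgroup.inv_mem _ (hx' _)⟩

lemma der (n : ℕ) : derivedSeries (WW Q) (n + 1) ≤ NW Q n := by
  induction n with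
  | zero =>
    rw [derivedSeries_succ, Subgroup.commutator_le]
    intro x _ y _
    rw [commutatorElement_def]
    refine ⟨?_, fun m => by simp⟩
    simp only [mul_k, inv_k]; ring
  | succ n ih =>
    rw [derivedSeries_succ, Subgroup.commutator_le]
    intro x hx y hy
    have hx := ih hx
    have hy := ih hy
    rw [commutatorElement_def]
    refine ⟨?_, fun m => ?_⟩
    · simp only [mul_k, inv_k]; ring
    · have e : (x * y * x⁻¹ * y⁻¹).φ m = x.φ m * y.φ m * (x.φ m)⁻¹ * (y.φ m)⁻¹ := by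
        simp only [mul_φ, inv_φ, mul_k, inv_k, hx.1, hy.1]
        simp
      rw [e, ← commutatorElement_def, derivedSeries_succ]
      exact Subgroup.commutator_mem_commutator (hx.2 m) (hy.2 m)

/-- a base function supported at `0` -/
def sg0 : Q →* WW Q where
  toFun q := ⟨fun m => if m = 0 then q else 1, ⟨0, fun m hm => if_neg (by omega)⟩, 0⟩
  map_one' := by
    apply ext'
    · intro m; show (if m = 0 then (1 : Q) else 1) = 1; simp
    · rfl
  map_mul' a b := by
    apply ext'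
    · intro m
      show (if m = 0 then a * b else 1) = (if m = 0 then a else 1) * (if m - 0 = 0 then b else 1)
      by_cases h : m = 0 <;> simp [h]
    · rfl

lemma sg0_φ (q : Q) (m : ℤ) : (sg0 q).φ m = if m = 0 then q else 1 := rfl

lemma sg0_mem (q : Q) : sg0 q ∈ derivedSeries (WW Q) 1 := by
  let x : WW Q := ⟨fun m => if 0 ≤ m then q else 1, ⟨0, fun m hm => if_neg (by omega)⟩, 0⟩
  let t : WW Q := ⟨1, ⟨0, fun _ _ => rfl⟩, 1⟩
  have : sg0 q = ⁅x, t⁆ := by
    rw [commutatorElement_def]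
    apply ext'
    · intro m
      simp only [mul_φ, inv_φ, mul_k, inv_k]
      show (if m = 0 then q else 1) = (if 0 ≤ m then q else 1) * 1 *
        (if 0 ≤ m - (0 + 1) + 0 then q else 1)⁻¹ * (1 : Q)⁻¹
      rcases lt_trichotomy m 0 with h | h | h
      · rw [if_neg (by omega), if_neg (by omega), if_neg (by omega)]; simp
      · subst h; simp
      · rw [if_neg (by omega), if_pos (by omega), if_pos (by omega)]; simp
    · simp only [mul_k, inv_k]
      show (0 : ℤ) = 0 + 1 + -0 + -1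
      ring
  rw [this, derivedSeries_one]
  exact Subgroup.commutator_mem_commutator (Subgroup.mem_top _) (Subgroup.mem_top _)

lemma sg0_der (n : ℕ) (z : Q) (hz : z ∈ derivedSeries Q n) :
    sg0 z ∈ derivedSeries (WW Q) (n + 1) := by
  have key : ∀ n, (derivedSeries Q n).map (sg0 (Q := Q)) ≤ derivedSeries (WW Q) (n + 1) := by
    intro n
    induction n with
    | zero =>
      rintro _ ⟨y, -, rfl⟩
      exact sg0_mem y
    | succ n ih =>
      rw [derivedSeries_succ, derivedSeries_succ _ (n + 1), Subgroup.map_commutator]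
      exact Subgroup.commutator_mono ih ih
  exact key n ⟨z, hz, rfl⟩

end WW

lemma exists_Q (d : ℕ) : ∃ (Q : Type) (_ : Group Q) (P : Set Q),
    RelCone (⊥ : Subgroup Q) P ∧ derivedSeries Q (d + 1) = ⊥ ∧
      ∃ z ∈ derivedSeries Q d, z ≠ 1 := by
  induction d with
  | zero =>
    refine ⟨Multiplicative ℤ, inferInstance, {x | 1 < x}, ?_, ?_, Multiplicative.ofAdd 1,
      by simp, by decide⟩
    · refine ⟨fun a ha b hb => show 1 < a * b from one_lt_mul'' ha hb, fun a ha g => ?_, fun a => ?_,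
        fun a ha hb => ?_, fun a ha h => ?_⟩
      · rw [mul_comm g, mul_inv_cancel_right]; exact ha
      · rcases lt_trichotomy 1 a with h | h | h
        · right; left; exact h
        · left; rw [← h]; exact Subgroup.one_mem _
        · right; right; exact one_lt_inv'.mpr h
      · have ha' : 1 < a := ha
        exact absurd (one_lt_inv'.mp hb) (not_lt.mpr ha'.le)
      · rw [Subgroup.mem_bot] at h
        subst h
        have ha' : (1 : Multiplicative ℤ) < 1 := ha
        exact lt_irrefl _ ha'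
    · rw [zero_add, derivedSeries_one, commutator_eq_bot_iff_center_eq_top]
      exact CommGroup.center_eq_top
  | succ d ih =>
    obtain ⟨Q, _, P, hP, h1, z, hz, hz1⟩ := ih
    refine ⟨WW Q, inferInstance, _, WW.cone hP, ?_, WW.sg0 z, WW.sg0_der d z hz, ?_⟩
    · rw [eq_bot_iff]
      intro x hx
      have := WW.der (d + 1) hx
      rw [Subgroup.mem_bot]
      apply WW.ext'
      · intro m
        have h2 := this.2 m
        rw [h1, Subgroup.mem_bot] at h2
        exact h2
      · exact this.1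
    · intro h
      apply hz1
      have := congrArg (fun x : WW Q => x.φ 0) h
      simpa [WW.sg0_φ, WW.one_φ] using this

end WW

/-! ### The tail group -/

section tail

variable {Q : Type} [Group Q] (z : Q)

/-- functions that are trivial near `-∞` and equal to `z^{± n}` with alternating signs near `∞` -/
def TG : Subgroup (ℤ → Q) where
  carrier := {φ | (∃ a, ∀ m, m < a → φ m = 1) ∧ ∃ n : ℤ, ∃ b, ∀ m, b ≤ m → φ m = z ^ (n * sg m)}
  one_mem' := ⟨⟨0, fun _ _ => rfl⟩, 0, 0, fun m _ => by simp⟩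
  mul_mem' := by
    rintro φ ψ ⟨⟨a, ha⟩, n, b, hb⟩ ⟨⟨a', ha'⟩, n', b', hb'⟩
    refine ⟨⟨min a a', fun m hm => ?_⟩, n + n', max b b', fun m hm => ?_⟩
    · rw [lt_min_iff] at hm
      show φ m * ψ m = 1
      rw [ha m hm.1, ha' m hm.2, mul_one]
    · rw [max_le_iff] at hm
      show φ m * ψ m = _
      rw [hb m hm.1, hb' m hm.2, ← zpow_add, add_mul]
  inv_mem' := by
    rintro φ ⟨⟨a, ha⟩, n, b, hb⟩
    refine ⟨⟨a, fun m hm => ?_⟩, -n, b, fun m hm => ?_⟩
    · show (φ m)⁻¹ = 1
      rw [ha m hm, inv_one]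
    · show (φ m)⁻¹ = _
      rw [hb m hm, ← zpow_neg, neg_mul]

variable {z}

lemma mem_TG {φ : ℤ → Q} : φ ∈ TG z ↔ (∃ a, ∀ m, m < a → φ m = 1) ∧
    ∃ n : ℤ, ∃ b, ∀ m, b ≤ m → φ m = z ^ (n * sg m) := Iff.rfl

/-- the tail exponent -/
noncomputable def tc (φ : TG z) : ℤ := Classical.choose φ.2.2

lemma tc_spec (φ : TG z) : ∃ b, ∀ m, b ≤ m → φ.1 m = z ^ (tc φ * sg m) :=
  Classical.choose_spec φ.2.2

lemma tc_unique (hz : ∀ n : ℤ, z ^ n = 1 → n = 0) (φ : TG z) (n : ℤ)
    (h : ∃ b, ∀ m, b ≤ m → φ.1 m = z ^ (n * sg m)) : tc φ = n := by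
  obtain ⟨b, hb⟩ := h
  obtain ⟨b', hb'⟩ := tc_spec φ
  have h1 := hb (max b b') (le_max_left _ _)
  have h2 := hb' (max b b') (le_max_right _ _)
  rw [h1] at h2
  have h3 : z ^ (tc φ * sg (max b b') - n * sg (max b b')) = 1 := by
    rw [zpow_sub, ← h2, mul_inv_cancel]
  have h4 := hz _ h3
  rcases sg_cases (max b b') with h | h <;> rw [h] at h4 <;> linarith

lemma tc_mul (hz : ∀ n : ℤ, z ^ n = 1 → n = 0) (φ ψ : TG z) : tc (φ * ψ) = tc φ + tc ψ := by
  apply tc_unique hz
  obtain ⟨b, hb⟩ := tc_spec φ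
  obtain ⟨b', hb'⟩ := tc_spec ψ
  refine ⟨max b b', fun m hm => ?_⟩
  rw [max_le_iff] at hm
  show φ.1 m * ψ.1 m = _
  rw [hb m hm.1, hb' m hm.2, ← zpow_add, add_mul]

lemma shift_mem (n : ℤ) (φ : ℤ → Q) (hφ : φ ∈ TG z) : (fun m => φ (m - n)) ∈ TG z := by
  obtain ⟨⟨a, ha⟩, r, b, hb⟩ := hφ
  refine ⟨⟨a + n, fun m hm => ha _ (by omega)⟩, r * sg n, b + n, fun m hm => ?_⟩
  show φ (m - n) = _
  rw [hb _ (by omega), sg_sub]
  congr 1; ring

variable (z) in
/-- the shift automorphism -/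
def shiftAut : MulAut (TG z) where
  toFun φ := ⟨fun m => φ.1 (m - 1), shift_mem 1 _ φ.2⟩
  invFun φ := ⟨fun m => φ.1 (m - (-1)), shift_mem (-1) _ φ.2⟩
  left_inv φ := by apply Subtype.ext; funext m; simp
  right_inv φ := by apply Subtype.ext; funext m; simp
  map_mul' φ ψ := rfl

lemma shiftAut_val (φ : TG z) (m : ℤ) : (shiftAut z φ).1 m = φ.1 (m - 1) := rfl

lemma tc_shift (hz : ∀ n : ℤ, z ^ n = 1 → n = 0) (φ : TG z) : tc (shiftAut z φ) = - tc φ := by
  apply tc_unique hz
  obtain ⟨b, hb⟩ := tc_spec φ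
  refine ⟨b + 1, fun m hm => ?_⟩
  rw [shiftAut_val, hb _ (by omega), sg_sub, sg_one]
  congr 1; ring

variable (z) in
/-- the basic element -/
def te : TG z := ⟨fun m => if 0 ≤ m then z ^ (sg m) else 1,
  ⟨⟨0, fun m hm => if_neg (by omega)⟩, 1, 0, fun m hm => by
    simp only [if_pos hm, one_mul]⟩⟩

lemma te_val (m : ℤ) : (te z).1 m = if 0 ≤ m then z ^ (sg m) else 1 := rfl

lemma tc_te (hz : ∀ n : ℤ, z ^ n = 1 → n = 0) : tc (te z) = 1 := by
  apply tc_unique hz
  exact ⟨0, fun m hm => by rw [te_val, if_pos hm, one_mul]⟩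

variable (z) in
/-- embedding of `Q` -/
def tι : Q →* TG z where
  toFun q := ⟨fun m => if m = 0 then q else 1,
    ⟨⟨0, fun m hm => if_neg (by omega)⟩, 0, 1, fun m hm => by
      show (if m = 0 then q else 1) = _
      rw [if_neg (by omega), zero_mul, zpow_zero]⟩⟩
  map_one' := by
    apply Subtype.ext; funext m
    show (if m = 0 then (1 : Q) else 1) = 1; simp
  map_mul' a b := by
    apply Subtype.ext; funext m
    show (if m = 0 then a * b else 1) = (if m = 0 then a else 1) * (if m = 0 then b else 1)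
    split_ifs <;> simp

lemma tι_val (q : Q) (m : ℤ) : (tι z q).1 m = if m = 0 then q else 1 := rfl

lemma tc_tι (hz : ∀ n : ℤ, z ^ n = 1 → n = 0) (q : Q) : tc (tι z q) = 0 := by
  apply tc_unique hz
  exact ⟨1, fun m hm => by rw [tι_val, if_neg (by omega), zero_mul, zpow_zero]⟩

lemma te_rel : te z * shiftAut z (te z) = tι z z := by
  apply Subtype.ext; funext m
  show (te z).1 m * (te z).1 (m - 1) = (tι z z).1 m
  rw [te_val, te_val, tι_val]
  rcases lt_trichotomy m 0 with h | h | h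
  · rw [if_neg (by omega), if_neg (by omega), if_neg (by omega), mul_one]
  · subst h; simp [sg_zero]
  · rw [if_pos (by omega), if_pos (by omega), if_neg (by omega), sg_sub, sg_one, ← zpow_add]
    simp

lemma zpow_ne {P : Set Q} (hP : RelCone (⊥ : Subgroup Q) P) (hz1 : z ≠ 1) (n : ℤ)
    (hn : z ^ n = 1) : n = 0 := by
  have key : ∀ n : ℕ, z ^ (n + 1) ≠ 1 := by
    intro n h
    rcases hP.tri z with h1 | h1 | h1
    · exact hz1 h1
    · exact cone_ne hP (hP.pow z h1 n) h
    · apply cone_ne hP (hP.pow _ h1 n)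
      rw [inv_pow, h, inv_one]
  by_contra h0
  rcases lt_or_gt_of_ne h0 with h | h
  · apply key (-n - 1).toNat
    rw [← zpow_natCast, show (((-n - 1).toNat + 1 : ℕ) : ℤ) = -n by push_cast; omega, zpow_neg,
      hn, inv_one]
  · apply key (n - 1).toNat
    rwa [← zpow_natCast, show (((n - 1).toNat + 1 : ℕ) : ℤ) = n by push_cast; omega]

/-- the data built from an ordered group and a nontrivial element -/
noncomputable def tailData {P : Set Q} (hP : RelCone (⊥ : Subgroup Q) P) (hz1 : z ≠ 1) :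
    Data (TG z) where
  σ := shiftAut z
  c := tc
  c_mul := tc_mul (zpow_ne hP hz1)
  c_σ := tc_shift (zpow_ne hP hz1)
  P := {φ | LeadPos P φ.1}
  cone := {
    mul := fun a ha b hb => LeadPos.mul hP ha hb
    conj := fun a ha g => LeadPos.conj hP ha g.1
    tri := by
      intro a
      by_cases ha : a = 1
      · left; exact ha
      · right
        have : a.1 ≠ 1 := fun h => ha (Subtype.ext h)
        exact LeadPos.tri hP a.1 a.2.1 this
    asym := fun a ha hb => LeadPos.asym hP ha hb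
    nmem := by
      intro a ha h
      rw [Subgroup.mem_bot] at h
      exact LeadPos.ne hP ha (by rw [h]; rfl) }
  Pσ := fun a ha => LeadPos.shift ha 1
  e := te z
  ce := tc_te (zpow_ne hP hz1)

lemma TG_der (d : ℕ) (h : derivedSeries Q d = ⊥) : derivedSeries (TG z) d = ⊥ := by
  rw [eq_bot_iff]
  intro x hx
  rw [Subgroup.mem_bot]
  apply Subtype.ext
  funext m
  let f : TG z →* Q := (Pi.evalMonoidHom (fun _ : ℤ => Q) m).comp (TG z).subtype
  have h1 := map_derivedSeries_le_derivedSeries f d ⟨x, hx, rfl⟩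
  rw [h, Subgroup.mem_bot] at h1
  exact h1

end tail

theorem result : ∀ n : ℕ, 4 < n → ∃ (G : Type) (_ : Group G),
    LinearlyOrderable G ∧ derivedSeries G n = ⊥ ∧ derivedSeries G (n - 1) ≠ ⊥ ∧
      ∃! H : Subgroup G, H ≠ ⊥ ∧ H ≠ ⊤ ∧ H.Normal ∧ RelativelyConvex H := by
  intro n hn
  obtain ⟨d, rfl⟩ : ∃ d, n = 3 + (d + 1) := ⟨n - 4, by omega⟩
  obtain ⟨Q, _, P, hP, h1, z, hz, hz1⟩ := exists_Q d
  let D : Data (TG z) := tailData hP hz1
  have hg : g1 D 0 = GG.E 0 (sgl D 1 (tι z z)) := by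
    unfold g1
    rw [← te_rel]; rfl
  have hg1 : g1 D 0 ≠ 1 := by
    rw [hg]
    intro h
    have h2 : sgl D 1 (tι z z) = 1 := GG.E_injective 0 (by rw [h, map_one])
    have h3 := congrArg (fun F : D.L => (F.1 1).1 0) h2
    have h4 : ((sgl D 1 (tι z z)).1 1).1 0 = z := by
      rw [sgl_val, if_pos rfl, tι_val, if_pos rfl]
    have h5 : ((1 : D.L).1 1).1 0 = (1 : Q) := rfl
    simp only [h4, h5] at h3
    exact hz1 h3
  have hder : g1 D 0 ∈ derivedSeries (GG D) (3 + d) := by
    rw [hg]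
    exact der_low (D := D) (tι z) (fun q => tc_tι (zpow_ne hP hz1) q) d z hz
  have hbot : derivedSeries (GG D) (3 + (d + 1)) = ⊥ := der_bot (d + 1) (TG_der (d + 1) h1)
  obtain ⟨K, hK, ⟨P', hP'⟩, hgK, hmax⟩ := exists_maximal_normal (g1 D 0) hg1 _ (coneG (D := D))
  have hKH : K ≤ GG.HH D := le_HH_of K hgK
  have hsurj := QuotientGroup.mk'_surjective K
  have hcone := hP'.quotient
  refine ⟨GG D ⧸ K, inferInstance, ⟨_, hcone.isBiOrder⟩, ?_, ?_, ?_⟩
  · rw [← map_derivedSeries_eq hsurj, hbot, Subgroup.map_bot]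
  · rw [show 3 + (d + 1) - 1 = 3 + d by omega, ← map_derivedSeries_eq hsurj]
    intro h
    have h2 : (QuotientGroup.mk' K) (g1 D 0) ∈ (derivedSeries (GG D) (3 + d)).map
      (QuotientGroup.mk' K) := ⟨_, hder, rfl⟩
    rw [h, Subgroup.mem_bot] at h2
    exact hgK ((QuotientGroup.eq_one_iff _).mp h2)
  · let κ : GG D ⧸ K →* Multiplicative ℤ := QuotientGroup.lift K GG.kHom hKH
    have hκ : ∀ x : GG D, κ (QuotientGroup.mk' K x) = GG.kHom x := fun x => rfl
    refine final_unique hcone κ ?_ ?_ ?_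
    · intro m
      refine ⟨QuotientGroup.mk' K (GG.tt (Multiplicative.toAdd m)), ?_⟩
      rw [hκ]; rfl
    · intro h
      have h2 : (QuotientGroup.mk' K) (g1 D 0) ∈ κ.ker := by
        rw [MonoidHom.mem_ker, hκ]; rfl
      rw [h, Subgroup.mem_bot] at h2
      exact hgK ((QuotientGroup.eq_one_iff _).mp h2)
    · rintro N hN hne ⟨P'', hP''⟩
      have hc := hP''.comap (QuotientGroup.mk' K)
      have hlt : K < N.comap (QuotientGroup.mk' K) := by
        refine lt_of_le_of_ne ?_ ?_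
        · intro x hx
          show QuotientGroup.mk' K x ∈ N
          rw [(QuotientGroup.eq_one_iff x).mpr hx |> fun h => (show QuotientGroup.mk' K x = 1 from h)]
          exact N.one_mem
        · intro he
          apply hne
          rw [eq_bot_iff]
          intro y hy
          obtain ⟨x, rfl⟩ := hsurj y
          have : x ∈ K := by rw [he]; exact hy
          rw [Subgroup.mem_bot]
          exact (QuotientGroup.eq_one_iff x).mpr this
      haveI : (N.comap (QuotientGroup.mk' K)).Normal := hN.comap _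
      have hg2 := hmax _ this ⟨_, hc⟩ hlt
      have hle := kill_order _ _ hc hg2
      intro y hy
      obtain ⟨x, rfl⟩ := hsurj y
      exact hle (show x ∈ GG.HH D by
        rw [MonoidHom.mem_ker, hκ] at hy
        exact hy)

end Pool.Agent.Results.MP_afa6c5_al.OneConvex
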